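import Pool.Agent.W868.Rec

/-!
# Definability and recursion over a model of set theory with classes
-/

set_option autoImplicit false
set_option linter.unreachableTactic false
set_option linter.unusedTactic false
set_option linter.unusedSectionVars false

namespace Pool.Agent.W2helper52.CF

open Pool.Agent.W868
open ZFSet (pair)

/-- `M` is a transitive model of ZF, and it satisfies separation and replacement for the formulas
with parameters from `S`. -/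
structure ZS (S M : Set ZFSet.{0}) : Prop where
  zf : IsZF M
  sub : M ⊆ S
  sep : ∀ φ : Fml ZFSet.{0} 1, φ.Over S → ∀ x ∈ M, ∃ y ∈ M, ∀ z,
    z ∈ y ↔ z ∈ x ∧ Sat M id φ ![z]
  rep : ∀ φ : Fml ZFSet.{0} 2, φ.Over S → ∀ x ∈ M,
    (∀ z ∈ x, ∃! w, w ∈ M ∧ Sat M id φ ![z, w]) →
      ∃ y ∈ M, ∀ w, w ∈ y ↔ w ∈ M ∧ ∃ z ∈ x, Sat M id φ ![z, w]

theorem tOver_mono {S T : Set ZFSet.{0}} (h : S ⊆ T) {n : ℕ} {s : Fin n ⊕ ZFSet.{0}}
    (hs : TOver S s) : TOver T s := fun a ha => h (hs a ha)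

theorem over_mono {S T : Set ZFSet.{0}} (h : S ⊆ T) : {n : ℕ} → (φ : Fml ZFSet.{0} n) →
    φ.Over S → φ.Over T
  | _, .mem _ _, h1 => ⟨tOver_mono h h1.1, tOver_mono h h1.2⟩
  | _, .eq _ _, h1 => ⟨tOver_mono h h1.1, tOver_mono h h1.2⟩
  | _, .neg φ, h1 => over_mono h φ h1
  | _, .and φ ψ, h1 => ⟨over_mono h φ h1.1, over_mono h ψ h1.2⟩
  | _, .ex φ, h1 => over_mono h φ h1

theorem dfn_mono {S T M : Set ZFSet.{0}} (h : S ⊆ T) {n : ℕ} {R : (Fin n → ZFSet.{0}) → Prop}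
    (hR : Dfn S M R) : Dfn T M R := by
  obtain ⟨φ, h1, h2⟩ := hR
  exact ⟨φ, over_mono h φ h1, h2⟩

theorem dfnF_mono {S T M : Set ZFSet.{0}} (h : S ⊆ T) {n : ℕ}
    {F : (Fin n → ZFSet.{0}) → ZFSet.{0}} (hF : DfnF S M F) : DfnF T M F :=
  ⟨hF.1, dfn_mono h hF.2⟩

section general

variable {S M : Set ZFSet.{0}} {n : ℕ}

theorem constM (hSM : M ⊆ S) {a : ZFSet.{0}} (ha : a ∈ M) :
    DfnF S M fun _ : Fin n → ZFSet.{0} => a := DfnF.const' ha (hSM ha)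

theorem specN (hSM : M ⊆ S) {m : ℕ} {R : (Fin n → ZFSet.{0}) → Prop} (h : Dfn S M R)
    (σ : Fin n → Fin m ⊕ ZFSet.{0}) (hσ : ∀ i, TOver M (σ i)) :
    Dfn S M fun w : Fin m → ZFSet.{0} => R fun i => Sum.elim w id (σ i) := by
  obtain ⟨φ, h1, h2⟩ := h
  refine ⟨φ.subst σ, over_subst _ _ (fun i => tOver_mono hSM (hσ i)) h1, fun v hv => ?_⟩
  rw [sat_subst]
  refine h2 _ fun i => ?_
  have h3 := hσ i
  cases h4 : σ i with
  | inl k => exact hv k
  | inr a =>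
    rw [h4] at h3
    exact h3 a rfl

theorem spec (hSM : M ⊆ S) {R : ZFSet.{0} → (Fin n → ZFSet.{0}) → Prop}
    (h : Dfn S M fun w : Fin (n + 1) → ZFSet.{0} => R (w 0) (Fin.tail w))
    {v : Fin n → ZFSet.{0}} (hv : ∀ i, v i ∈ M) :
    Dfn S M fun w : Fin 1 → ZFSet.{0} => R (w 0) v := by
  refine specN hSM h (m := 1) (Fin.cons (Sum.inl 0) fun i => Sum.inr (v i)) fun i => ?_
  refine Fin.cases ?_ (fun i => ?_) i
  · exact TOver.inl _
  · exact tOver_inr.2 (hv i)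

theorem spec2 (hSM : M ⊆ S) {R : ZFSet.{0} → ZFSet.{0} → (Fin n → ZFSet.{0}) → Prop}
    (h : Dfn S M fun w : Fin (n + 2) → ZFSet.{0} => R (w 0) (w 1) (Fin.tail (Fin.tail w)))
    {v : Fin n → ZFSet.{0}} (hv : ∀ i, v i ∈ M) :
    Dfn S M fun w : Fin 2 → ZFSet.{0} => R (w 0) (w 1) v := by
  refine specN hSM h (m := 2)
    (Fin.cons (Sum.inl 0) (Fin.cons (Sum.inl 1) fun i => Sum.inr (v i))) fun i => ?_
  refine Fin.cases ?_ (fun i => ?_) i
  · exact TOver.inl _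
  · refine Fin.cases ?_ (fun i => ?_) i
    · exact TOver.inl _
    · exact tOver_inr.2 (hv i)

theorem specF (hSM : M ⊆ S) {h : ZFSet.{0} → (Fin n → ZFSet.{0}) → ZFSet.{0}}
    (hh : DfnF S M fun w : Fin (n + 1) → ZFSet.{0} => h (w 0) (Fin.tail w))
    {v : Fin n → ZFSet.{0}} (hv : ∀ i, v i ∈ M) :
    DfnF S M fun w : Fin 1 → ZFSet.{0} => h (w 0) v := by
  refine ⟨fun w hw => hh.1 (Fin.cons (w 0) v) fun i => ?_, ?_⟩
  · refine Fin.cases ?_ (fun i => ?_) i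
    · exact hw 0
    · exact hv i
  · exact spec2 hSM (R := fun y x v => y = h x v) hh.2 hv

end general

namespace ZS

variable {S M : Set ZFSet.{0}} (hZ : ZS S M) {n : ℕ}
  {F G : (Fin n → ZFSet.{0}) → ZFSet.{0}}

include hZ

theorem const {a : ZFSet.{0}} (ha : a ∈ M) :
    DfnF S M fun _ : Fin n → ZFSet.{0} => a := DfnF.const' ha (hZ.sub ha)

theorem sep_mem {Q : ZFSet.{0} → Prop} (h : Dfn S M fun w : Fin 1 → ZFSet.{0} => Q (w 0))
    {x : ZFSet.{0}} (hx : x ∈ M) : ZFSet.sep Q x ∈ M := by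
  obtain ⟨φ, h1, h2⟩ := h
  obtain ⟨y, hy, h3⟩ := hZ.sep φ h1 x hx
  have h4 : y = ZFSet.sep Q x := by
    ext z
    rw [h3, ZFSet.mem_sep]
    refine and_congr_right fun hz => h2 ![z] fun i => ?_
    fin_cases i
    exact hZ.zf.trans _ hx z hz
  exact h4 ▸ hy

/-- Replacement for definable functions. -/
theorem image_mem {x : ZFSet.{0}} (hx : x ∈ M) {f : ZFSet.{0} → ZFSet.{0}}
    (h : DfnF S M fun w : Fin 1 → ZFSet.{0} => f (w 0)) :
    ∃ y ∈ M, ∀ w, w ∈ y ↔ ∃ z ∈ x, w = f z := by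
  obtain ⟨h1, φ, h2, h3⟩ := h
  have h4 : ∀ z ∈ M, ∀ w ∈ M, (Sat M id (φ.subst ![Sum.inl 1, Sum.inl 0]) ![z, w] ↔ w = f z) := by
    intro z hz w hw
    rw [sat_subst]
    have h5 : (fun k : Fin 2 => Sum.elim (![z, w] : Fin 2 → ZFSet.{0}) id
        ((![Sum.inl 1, Sum.inl 0] : Fin 2 → Fin 2 ⊕ ZFSet.{0}) k)) = ![w, z] := by
      funext i
      fin_cases i <;> rfl
    rw [h5, h3]
    · rfl
    · intro i
      fin_cases i
      · exact hw
      · exact hz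
  have h6 : ∀ z ∈ M, f z ∈ M := fun z hz => h1 (fun _ => z) fun _ => hz
  obtain ⟨y, hy, h7⟩ := hZ.rep (φ.subst ![Sum.inl 1, Sum.inl 0]) (by
    refine over_subst _ _ (fun k => ?_) h2
    fin_cases k
    · exact TOver.inl _
    · exact TOver.inl _) x hx (by
    intro z hz
    have hzM := hZ.zf.trans _ hx _ hz
    exact ⟨f z, ⟨h6 z hzM, (h4 z hzM _ (h6 z hzM)).2 rfl⟩, fun w hw => (h4 z hzM w hw.1).1 hw.2⟩)
  refine ⟨y, hy, fun w => ?_⟩
  rw [h7]
  constructor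
  · rintro ⟨hw, z, hz, h8⟩
    exact ⟨z, hz, (h4 z (hZ.zf.trans _ hx _ hz) w hw).1 h8⟩
  · rintro ⟨z, hz, rfl⟩
    have hzM := hZ.zf.trans _ hx _ hz
    exact ⟨h6 z hzM, z, hz, (h4 z hzM _ (h6 z hzM)).2 rfl⟩

theorem im_mem {h : ZFSet.{0} → ZFSet.{0}} {x : ZFSet.{0}} (hx : x ∈ M)
    (hh : DfnF S M fun w : Fin 1 → ZFSet.{0} => h (w 0)) : im h x ∈ M := by
  obtain ⟨y, hy, h1⟩ := hZ.image_mem hx hh
  have h2 : y = im h x := by
    ext z
    rw [h1, mem_im]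
  exact h2 ▸ hy

theorem im' (hF : DfnF S M F) {h : ZFSet.{0} → (Fin n → ZFSet.{0}) → ZFSet.{0}}
    (hh : DfnF S M fun w : Fin (n + 1) → ZFSet.{0} => h (w 0) (Fin.tail w)) :
    DfnF S M fun v => im (fun p => h p v) (F v) := by
  have hB := hZ.zf.base
  refine DfnF.of_unique (R := fun y v => (∀ z ∈ y, ∃ p ∈ F v, z = h p v) ∧
    ∀ p ∈ F v, ∃ z ∈ y, z = h p v) ?_ ?_
  · apply Dfn.and
    · apply hB.ball (DfnF.proj _)
      apply hB.bex hF.tail.tail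
      refine Dfn.eq (DfnF.proj 1) ?_
      exact ⟨fun v hv => hh.1 (Fin.cons (v 0) (Fin.tail (Fin.tail (Fin.tail v)))) fun i => by
          refine Fin.cases ?_ (fun i => ?_) i
          · exact hv 0
          · exact hv _,
        hh.2.comp (Fin.cons 0 (Fin.cons 1 fun i => i.succ.succ.succ.succ))⟩
    · apply hB.ball hF.tail
      apply hB.bex (DfnF.proj _)
      refine Dfn.eq (DfnF.proj 0) ?_
      exact ⟨fun v hv => hh.1 (Fin.cons (v 1) (Fin.tail (Fin.tail (Fin.tail v)))) fun i => by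
          refine Fin.cases ?_ (fun i => ?_) i
          · exact hv 1
          · exact hv _,
        hh.2.comp (Fin.cons 0 (Fin.cons 2 fun i => i.succ.succ.succ.succ))⟩
  · intro v hv
    refine ⟨hZ.im_mem (hF.1 v hv) (specF hZ.sub hh hv), fun y hy => ?_⟩
    constructor
    · rintro ⟨h1, h2⟩
      ext z
      rw [mem_im]
      constructor
      · exact h1 z
      · rintro ⟨p, hp, rfl⟩
        obtain ⟨z, hz, hz'⟩ := h2 p hp
        exact hz' ▸ hz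
    · rintro rfl
      exact ⟨fun z hz => mem_im.1 hz, fun p hp => ⟨_, mem_im.2 ⟨p, hp, rfl⟩, rfl⟩⟩

theorem sep' (hF : DfnF S M F) {Q : ZFSet.{0} → (Fin n → ZFSet.{0}) → Prop}
    (hQ : Dfn S M fun w : Fin (n + 1) → ZFSet.{0} => Q (w 0) (Fin.tail w)) :
    DfnF S M fun v => ZFSet.sep (fun p => Q p v) (F v) := by
  have hB := hZ.zf.base
  refine DfnF.of_unique (R := fun y v => (∀ z ∈ y, z ∈ F v ∧ Q z v) ∧
    ∀ z ∈ F v, Q z v → z ∈ y) ?_ ?_
  · apply Dfn.and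
    · apply hB.ball (DfnF.proj _)
      exact (Dfn.mem (DfnF.proj _) hF.tail.tail).and
        (hQ.comp (Fin.cons 0 fun i => i.succ.succ))
    · apply hB.ball hF.tail
      apply Dfn.imp (hQ.comp (Fin.cons 0 fun i => i.succ.succ))
      exact Dfn.mem (DfnF.proj 0) (DfnF.proj 1)
  · intro v hv
    refine ⟨hZ.sep_mem (Q := fun p => Q p v) (spec hZ.sub hQ hv) (hF.1 v hv), fun y hy => ?_⟩
    constructor
    · rintro ⟨h1, h2⟩
      ext z
      rw [ZFSet.mem_sep]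
      exact ⟨h1 z, fun h => h2 z h.1 h.2⟩
    · rintro rfl
      exact ⟨fun z hz => ZFSet.mem_sep.1 hz, fun z h h' => ZFSet.mem_sep.2 ⟨h, h'⟩⟩

theorem fs' (hF : DfnF S M F) : DfnF S M fun v => fs (F v) :=
  DfnF.comp1 (f := fs) (dfnF_mono hZ.sub (hZ.zf.fs' (DfnF.proj (0 : Fin 1)))) hF

theorem sn' (hF : DfnF S M F) : DfnF S M fun v => sn (F v) :=
  DfnF.comp1 (f := sn) (dfnF_mono hZ.sub (hZ.zf.sn' (DfnF.proj (0 : Fin 1)))) hF

theorem prod' (hF : DfnF S M F) (hG : DfnF S M G) : DfnF S M fun v => ZFSet.prod (F v) (G v) :=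
  DfnF.comp2 (f := ZFSet.prod) (dfnF_mono hZ.sub (hZ.zf.prod' (DfnF.proj (0 : Fin 2))
    (DfnF.proj (1 : Fin 2)))) hF hG

theorem lo' {Q : ZFSet.{0} → (Fin n → ZFSet.{0}) → Prop}
    (hQ : Dfn S M fun w : Fin (n + 1) → ZFSet.{0} => Q (w 0) (Fin.tail w)) :
    DfnF S M fun v => lo M fun ζ => Q ζ v := by
  have hB := hZ.zf.base
  have h0 := hZ.zf.empty_mem
  refine DfnF.of_unique (R := fun y v => (y.IsOrdinal ∧ Q y v ∧ ∀ ζ ∈ y, ¬ Q ζ v) ∨
    (y = ∅ ∧ ¬ ∃ ζ ∈ M, ζ.IsOrdinal ∧ Q ζ v)) ?_ ?_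
  · have h1 : Dfn S M fun w : Fin (n + 2) → ZFSet.{0} => Q (w 0) (Fin.tail (Fin.tail w)) :=
      hQ.comp (Fin.cons 0 fun i => i.succ.succ)
    apply Dfn.or
    · apply Dfn.and (hB.isOrdinal' (DfnF.proj 0))
      apply Dfn.and hQ
      exact hB.ball (DfnF.proj 0) h1.not
    · apply Dfn.and (Dfn.eq (DfnF.proj 0) (hZ.const h0))
      apply Dfn.not
      apply Dfn.ex
      exact (hB.isOrdinal' (DfnF.proj 0)).and h1
  · intro v hv
    by_cases h : ∃ ζ ∈ M, ζ.IsOrdinal ∧ Q ζ v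
    · obtain ⟨h1, h2, h3⟩ := lo_spec h
      refine ⟨h1, fun y hy => ?_⟩
      constructor
      · rintro (⟨h4, h5, h6⟩ | ⟨-, h4⟩)
        · rcases h4.mem_trichotomous h2 with h7 | h7 | h7
          · exact absurd h7 (lo_min hy h4 h5)
          · exact h7
          · exact absurd h3 (h6 _ h7)
        · exact absurd h h4
      · rintro rfl
        exact Or.inl ⟨h2, h3, fun ζ hζ h4 => lo_min (hZ.zf.trans _ h1 _ hζ) (h2.mem hζ) h4 hζ⟩
    · rw [lo_none h]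
      refine ⟨h0, fun y hy => ?_⟩
      constructor
      · rintro (⟨h4, h5, h6⟩ | ⟨h4, -⟩)
        · exact absurd ⟨y, hy, h4, h5⟩ h
        · exact h4
      · rintro rfl
        exact Or.inr ⟨rfl, h⟩

end ZS

section recursion

variable {S M : Set ZFSet.{0}} (hZ : ZS S M) {pr F : ZFSet.{0} → ZFSet.{0}}
  {G : ZFSet.{0} → ZFSet.{0} → ZFSet.{0}}

include hZ

theorem dfn_approx (hpr : DfnF S M fun w : Fin 1 → ZFSet.{0} => pr (w 0))
    (hG : DfnF S M fun w : Fin 2 → ZFSet.{0} => G (w 0) (w 1)) :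
    Dfn S M fun w : Fin 1 → ZFSet.{0} => Approx M pr G (w 0) := by
  have hB := hZ.zf.base
  unfold Approx
  (repeat' first
      | assumption
      | exact DfnF.proj _
      | apply Dfn.not | apply Dfn.and | apply Dfn.or | apply Dfn.imp | apply Dfn.iff
      | apply hB.bex | apply hB.ball | apply Dfn.ex | apply Dfn.all
      | apply Dfn.eq | apply Dfn.mem | apply hB.pair'
      | exact DfnF.comp1 (f := pr) hpr (DfnF.proj _)
      | exact DfnF.comp2 (f := G) hG (DfnF.proj _) (DfnF.proj _))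

theorem rec_aux (hwf : WellFounded fun u z => u ∈ pr z)
    (hpr : DfnF S M fun w : Fin 1 → ZFSet.{0} => pr (w 0))
    (hG : DfnF S M fun w : Fin 2 → ZFSet.{0} => G (w 0) (w 1))
    (hF : ∀ z, F z = G z (gr F (pr z))) (z : ZFSet.{0}) (hz : z ∈ M) :
    rcl pr hwf F z ∈ M ∧ Approx M pr G (rcl pr hwf F z) := by
  have hB := hZ.zf.base
  induction z using hwf.induction with
  | _ z ih =>
  have hpz : pr z ∈ M := hpr.1 (fun _ => z) fun _ => hz
  have ih1 : ∀ u ∈ pr z, rcl pr hwf F u ∈ M ∧ Approx M pr G (rcl pr hwf F u) := fun u hu =>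
    ih u hu (hZ.zf.trans _ hpz _ hu)
  -- the family of these sets is in M
  have hd : Dfn S M fun w : Fin 2 → ZFSet.{0} => Approx M pr G (w 1) ∧
      (∃ y ∈ M, pair (w 0) y ∈ w 1) ∧ ∀ k ∈ M, Approx M pr G k → (∃ y ∈ M, pair (w 0) y ∈ k) →
        w 1 ⊆ k := by
    have ha := dfn_approx hZ hpr hG
    apply Dfn.and
    · exact Dfn.comp1 (Q := Approx M pr G) ha (DfnF.proj 1)
    apply Dfn.and
    · (repeat' first
      | exact DfnF.proj _
      | apply Dfn.ex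
      | apply Dfn.mem | apply hB.pair')
    apply Dfn.all
    apply Dfn.imp
    · exact Dfn.comp1 (Q := Approx M pr G) ha (DfnF.proj 0)
    (repeat' first
      | exact DfnF.proj _
      | apply Dfn.imp
      | apply Dfn.ex | apply hB.subset'
      | apply Dfn.mem | apply hB.pair')
  obtain ⟨φ, hφ, hφ'⟩ := hd
  have key : ∀ u ∈ pr z, ∀ w ∈ M, Sat M id φ ![u, w] ↔ w = rcl pr hwf F u := by
    intro u hu w hw
    have huM := hZ.zf.trans _ hpz _ hu
    rw [hφ' ![u, w] (by intro i; fin_cases i; exacts [huM, hw])]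
    obtain ⟨h1, h2⟩ := ih1 u hu
    have hFu : ∃ y ∈ M, pair u y ∈ rcl pr hwf F u :=
      ⟨F u, (hZ.zf.of_pair_mem (hZ.zf.trans _ h1 _ (rcl_self u))).2, rcl_self u⟩
    constructor
    · rintro ⟨h3, ⟨y, -, h4⟩, h5⟩
      apply ZFSet.ext
      intro p
      exact ⟨fun hp => h5 _ h1 h2 hFu hp, fun hp => rcl_min hwf hF h3 u ⟨y, h4⟩ hp⟩
    · rintro rfl
      exact ⟨h2, hFu, fun k _ hk ⟨y, _, hy⟩ => rcl_min hwf hF hk u ⟨y, hy⟩⟩
  obtain ⟨S₁, hS, hS'⟩ := hZ.rep φ hφ _ hpz (by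
    intro u hu
    exact ⟨rcl pr hwf F u, ⟨(ih1 u hu).1, (key u hu _ (ih1 u hu).1).2 rfl⟩,
      fun w hw => (key u hu w hw.1).1 hw.2⟩)
  have hS1 : S₁ = im (rcl pr hwf F) (pr z) := by
    ext w
    rw [hS', mem_im]
    constructor
    · rintro ⟨hw, u, hu, h⟩
      exact ⟨u, hu, (key u hu w hw).1 h⟩
    · rintro ⟨u, hu, rfl⟩
      exact ⟨(ih1 u hu).1, u, hu, (key u hu _ (ih1 u hu).1).2 rfl⟩
  have hU : ZFSet.sUnion S₁ ∈ M := hZ.zf.union _ hS
  have hd2 : Dfn S M fun w : Fin 1 → ZFSet.{0} => ∃ u ∈ pr z, ∃ y ∈ M, w 0 = pair u y := by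
    have h1 := hpz
    (repeat' first
      | assumption
      | exact DfnF.proj _
      | exact hZ.const (by assumption)
      | exact hZ.const (by assumption)
      | exact Dfn.prop _
      | apply Dfn.not | apply Dfn.and | apply Dfn.or | apply Dfn.imp | apply Dfn.iff
      | apply hB.bex | apply hB.ball | apply Dfn.ex | apply Dfn.all
      | apply Dfn.eq | apply Dfn.mem | apply hB.pair')
  have hgr : gr F (pr z) ∈ M := by
    have h1 := hZ.sep_mem (Q := fun p => ∃ u ∈ pr z, ∃ y ∈ M, p = pair u y) hd2 hU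
    have h2 : ZFSet.sep (fun p => ∃ u ∈ pr z, ∃ y ∈ M, p = pair u y) (ZFSet.sUnion S₁) =
        gr F (pr z) := by
      ext p
      rw [ZFSet.mem_sep, mem_gr, ZFSet.mem_sUnion]
      constructor
      · rintro ⟨⟨w, hw, hp⟩, u, hu, y, -, rfl⟩
        rw [hS1, mem_im] at hw
        obtain ⟨u', hu', rfl⟩ := hw
        obtain ⟨u'', h3⟩ := rcl_form hwf _ _ hp
        obtain ⟨rfl, rfl⟩ := ZFSet.pair_inj.1 h3
        exact ⟨u, hu, rfl⟩
      · rintro ⟨u, hu, rfl⟩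
        have h3 := (hZ.zf.of_pair_mem (hZ.zf.trans _ (ih1 u hu).1 _ (rcl_self u))).2
        exact ⟨⟨rcl pr hwf F u, hS1 ▸ mem_im.2 ⟨u, hu, rfl⟩, rcl_self u⟩, u, hu, F u, h3, rfl⟩
    exact h2 ▸ h1
  have hFz : F z ∈ M := by
    rw [hF]
    exact hG.1 ![z, gr F (pr z)] (by intro i; fin_cases i; exacts [hz, hgr])
  have hcl : rcl pr hwf F z ∈ M := by
    rw [rcl_eq, ← hS1]
    exact hZ.zf.insert_mem (hZ.zf.pair_mem hz hFz) hU
  refine ⟨hcl, fun p hp => ?_⟩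
  rcases mem_rcl.1 hp with rfl | ⟨u, hu, hp'⟩
  · refine ⟨z, hz, F z, hFz, rfl, gr F (pr z), hgr, ?_, ?_, hF z⟩
    · intro q hq
      obtain ⟨u, hu, rfl⟩ := mem_gr.1 hq
      have h3 := (hZ.zf.of_pair_mem (hZ.zf.trans _ (ih1 u hu).1 _ (rcl_self u))).2
      exact ⟨mem_rcl.2 (Or.inr ⟨u, hu, rcl_self u⟩), u, hu, F u, h3, rfl⟩
    · intro u hu
      have h3 := (hZ.zf.of_pair_mem (hZ.zf.trans _ (ih1 u hu).1 _ (rcl_self u))).2
      exact ⟨F u, h3, mem_gr.2 ⟨u, hu, rfl⟩⟩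
  · obtain ⟨u', hu', y', hy', h1, g, hg, h2, h3⟩ := (ih1 u hu).2 p hp'
    exact ⟨u', hu', y', hy', h1, g, hg, fun q hq =>
      ⟨mem_rcl.2 (Or.inr ⟨u, hu, (h2 q hq).1⟩), (h2 q hq).2⟩, h3⟩

/-- The recursion theorem. -/
theorem ZS.wfrec (hwf : WellFounded fun u z => u ∈ pr z)
    (hpr : DfnF S M fun w : Fin 1 → ZFSet.{0} => pr (w 0))
    (hG : DfnF S M fun w : Fin 2 → ZFSet.{0} => G (w 0) (w 1))
    (hF : ∀ z, F z = G z (gr F (pr z))) : DfnF S M fun w : Fin 1 → ZFSet.{0} => F (w 0) := by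
  have hB := hZ.zf.base
  have ha := dfn_approx hZ hpr hG
  refine DfnF.of_unique (R := fun y v => ∃ k ∈ M, Approx M pr G k ∧ pair (v 0) y ∈ k) ?_ ?_
  · apply Dfn.ex
    apply Dfn.and
    · exact Dfn.comp1 (Q := Approx M pr G) ha (DfnF.proj 0)
    · (repeat' first
      | exact DfnF.proj _
      | apply Dfn.mem | apply hB.pair')
  · intro v hv
    obtain ⟨h1, h2⟩ := rec_aux hZ hwf hpr hG hF (v 0) (hv 0)
    refine ⟨(hZ.zf.of_pair_mem (hZ.zf.trans _ h1 _ (rcl_self _))).2, fun y _ => ?_⟩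
    constructor
    · rintro ⟨k, -, h3, h4⟩
      exact (approx_eq hwf hF h3 _ _ h4).1
    · rintro rfl
      exact ⟨_, h1, h2, rcl_self _⟩

/-- Recursion along the membership relation. -/
theorem ZS.memrec (hG : DfnF S M fun w : Fin 2 → ZFSet.{0} => G (w 0) (w 1))
    (hF : ∀ z, F z = G z (gr F z)) : DfnF S M fun w : Fin 1 → ZFSet.{0} => F (w 0) :=
  hZ.wfrec (pr := fun z => z) ZFSet.mem_wf (DfnF.proj 0) hG hF

end recursion

end Pool.Agent.W2helper52.CF
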