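import Pool.Agent.W2helper52.CF.Defs
import Pool.Agent.W2helper52.CF.Zs
import Pool.Agent.R597.Ex7
import Pool.Agent.R597.Wo

/-!
# Models of `GBC`: basic facts
-/

set_option autoImplicit false
set_option linter.unreachableTactic false
set_option linter.unusedTactic false
set_option linter.unusedSectionVars false

namespace Pool.Agent.W2helper52.CF

open Pool.Agent.W868 Pool.Agent.W868.GM Pool.Agent.R597 Pool.Agent.Y588
open ZFSet (pair)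

variable {M C : ZFSet.{0}}

theorem rep_of_gb (h : IsGB M C) (φ : Fml ZFSet.{0} 2) (hφ : φ.Over {X | X ∈ C})
    (x : ZFSet.{0}) (hx : x ∈ M)
    (h1 : ∀ z ∈ x, ∃! w, w ∈ {x | x ∈ M} ∧ Sat {x | x ∈ M} id φ ![z, w]) :
    ∃ y ∈ {x | x ∈ M}, ∀ w, w ∈ y ↔ w ∈ {x | x ∈ M} ∧ ∃ z ∈ x, Sat {x | x ∈ M} id φ ![z, w] := by
  obtain ⟨y, hy, h2⟩ := h.collection φ hφ x hx fun z hz => by
    obtain ⟨w, hw, -⟩ := h1 z hz
    exact ⟨w, hw.1, hw.2⟩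
  obtain ⟨y', hy', h3⟩ := h.separation
    (.ex (.and (.mem (Sum.inl 0) (Sum.inr x)) (φ.subst ![Sum.inl 0, Sum.inl 1])))
    ⟨⟨TOver.inl _, tOver_inr.2 (h.sets x hx)⟩, over_subst _ _ (fun k => by
      fin_cases k <;> exact TOver.inl _) hφ⟩ y hy
  have h4 : ∀ w, Sat {x | x ∈ M} id (.ex (.and (.mem (Sum.inl 0) (Sum.inr x))
      (φ.subst ![Sum.inl 0, Sum.inl 1]))) ![w] ↔ ∃ z ∈ x, Sat {x | x ∈ M} id φ ![z, w] := by
    intro w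
    simp only [Sat, sat_subst]
    have h5 : ∀ a, (fun k => Sum.elim (Fin.cons a ![w] : Fin 2 → ZFSet.{0}) id
        ((![Sum.inl 0, Sum.inl 1] : Fin 2 → Fin 2 ⊕ ZFSet.{0}) k)) = ![a, w] := by
      intro a
      funext k
      fin_cases k <;> rfl
    constructor
    · rintro ⟨a, -, h6, h7⟩
      rw [h5] at h7
      exact ⟨a, h6, h7⟩
    · rintro ⟨a, h6, h7⟩
      refine ⟨a, h.trans _ hx _ h6, h6, ?_⟩
      rw [h5]
      exact h7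
  refine ⟨y', hy', fun w => ?_⟩
  rw [h3, h4]
  constructor
  · rintro ⟨h5, h6⟩
    exact ⟨h.trans _ hy _ h5, h6⟩
  · rintro ⟨hw, z, hz, h6⟩
    refine ⟨?_, z, hz, h6⟩
    obtain ⟨w', h7, h8⟩ := h2 z hz
    have h9 := (h1 z hz).unique ⟨hw, h6⟩ ⟨h.trans _ hy _ h7, h8⟩
    rwa [h9]

/-- The sets of a model of `GBC`. -/
theorem zs_of_gbc (h : IsGBC M C) : ZS {X | X ∈ C} {x | x ∈ M} := by
  have hsub : {x | x ∈ M} ⊆ {X | X ∈ C} := fun x hx => h.sets x hx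
  exact ⟨⟨h.trans, h.pairing, h.union, h.infinity, h.power,
    fun φ hφ => h.separation φ (over_mono hsub φ hφ),
    fun φ hφ => rep_of_gb h.toIsGB φ (over_mono hsub φ hφ)⟩, hsub, h.separation,
    rep_of_gb h.toIsGB⟩

/-- Definable classes. -/
theorem cls_of (h : IsGB M C) {Q : ZFSet.{0} → Prop}
    (hQ : Dfn {X | X ∈ C} {x | x ∈ M} fun w : Fin 1 → ZFSet.{0} => Q (w 0)) :
    ZFSet.sep Q M ∈ C := by
  obtain ⟨φ, h1, h2⟩ := hQ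
  obtain ⟨X, hX, h3⟩ := h.comprehension φ h1
  have h4 : X = ZFSet.sep Q M := by
    ext z
    rw [h3, ZFSet.mem_sep]
    refine and_congr_right fun hz => h2 ![z] fun i => ?_
    fin_cases i
    exact hz
  exact h4 ▸ hX

theorem dfn_cls {X : ZFSet.{0}} (hX : X ∈ C) :
    Dfn {X | X ∈ C} {x | x ∈ M} fun w : Fin 1 → ZFSet.{0} => w 0 ∈ X :=
  ⟨.mem (Sum.inl 0) (Sum.inr X), ⟨TOver.inl _, tOver_inr.2 hX⟩, fun _ _ => Iff.rfl⟩

theorem Dfn.cls {X : ZFSet.{0}} (hX : X ∈ C) {n : ℕ} {F : (Fin n → ZFSet.{0}) → ZFSet.{0}}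
    (hF : DfnF {X | X ∈ C} {x | x ∈ M} F) :
    Dfn {X | X ∈ C} {x | x ∈ M} fun v => F v ∈ X :=
  Dfn.comp1 (Q := fun x => x ∈ X) (dfn_cls hX) hF

namespace ZS

variable {S K : Set ZFSet.{0}} (hZ : ZS S K) {n : ℕ}
  {F G : (Fin n → ZFSet.{0}) → ZFSet.{0}}

include hZ

theorem ap' (hF : DfnF S K F) (hG : DfnF S K G) : DfnF S K fun w => ap (F w) (G w) :=
  DfnF.comp2 (f := ap) (dfnF_mono hZ.sub (hZ.zf.ap' (DfnF.proj (0 : Fin 2))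
    (DfnF.proj (1 : Fin 2)))) hF hG

theorem dm' (hF : DfnF S K F) : DfnF S K fun v => dm (F v) :=
  DfnF.comp1 (f := dm) (dfnF_mono hZ.sub (Y588.dm' hZ.zf (DfnF.proj (0 : Fin 1)))) hF

theorem rk' (hF : DfnF S K F) : DfnF S K fun v => rk (F v) :=
  DfnF.comp1 (f := rk) (dfnF_mono hZ.sub (dfn_rk hZ.zf)) hF

theorem Vh' (hF : DfnF S K F) : DfnF S K fun v => Vh K (F v) :=
  DfnF.comp1 (f := Vh K) (dfnF_mono hZ.sub (dfn_Vh hZ.zf)) hF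

theorem wt' {Q : ZFSet.{0} → (Fin n → ZFSet.{0}) → Prop}
    (hQ : Dfn S K fun w : Fin (n + 1) → ZFSet.{0} => Q (w 0) (Fin.tail w)) :
    DfnF S K fun v => wt K fun w => Q w v := by
  have hB := hZ.zf.base
  refine hZ.sep' (Q := Q) ?_ hQ
  refine hZ.Vh' ?_
  have h1 : DfnF S K fun v : Fin n → ZFSet.{0} => lo K fun ξ => ∃ w ∈ K, rk w = ξ ∧ Q w v := by
    refine hZ.lo' (Q := fun ξ v => ∃ w ∈ K, rk w = ξ ∧ Q w v) ?_
    apply Dfn.ex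
    apply Dfn.and
    · exact Dfn.eq (hZ.rk' (DfnF.proj 0)) (DfnF.proj 1)
    · exact hQ.comp (Fin.cons 0 fun i => i.succ.succ)
  exact hB.insert' h1 h1

theorem gr_mem {h : ZFSet.{0} → ZFSet.{0}} {x : ZFSet.{0}} (hx : x ∈ K)
    (hh : DfnF S K fun w : Fin 1 → ZFSet.{0} => h (w 0)) : gr h x ∈ K :=
  hZ.im_mem hx (hZ.zf.base.pair' (DfnF.proj 0) hh)

theorem inj_of_fun {x y : ZFSet.{0}} (hx : x ∈ K) {h : ZFSet.{0} → ZFSet.{0}}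
    (hh : DfnF S K fun w : Fin 1 → ZFSet.{0} => h (w 0)) (h1 : ∀ a ∈ x, h a ∈ y)
    (h2 : ∀ a ∈ x, ∀ a' ∈ x, h a = h a' → a = a') : Inj K x y := by
  refine ⟨gr h x, hZ.gr_mem hx hh, ⟨?_, fun a ha => ?_⟩, fun a b c hac hbc => ?_⟩
  · intro p hp
    obtain ⟨u, hu, rfl⟩ := mem_gr.1 hp
    exact ZFSet.pair_mem_prod.2 ⟨hu, h1 u hu⟩
  · exact ⟨h a, pair_mem_gr.2 ⟨ha, rfl⟩, fun y hy => (pair_mem_gr.1 hy).2⟩
  · obtain ⟨h3, h4⟩ := pair_mem_gr.1 hac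
    obtain ⟨h5, h6⟩ := pair_mem_gr.1 hbc
    exact h2 a h3 b h5 (h4.symm.trans h6)

end ZS

/-! ### The names -/

/-- The class of the names for a class forcing is definable. -/
theorem dfn_isNameC {S K : Set ZFSet.{0}} (hZ : ZS S K) {P : ZFSet.{0}} (hPK : ∀ p ∈ P, p ∈ K)
    (hP : Dfn S K fun w : Fin 1 → ZFSet.{0} => w 0 ∈ P) :
    Dfn S K fun w : Fin 1 → ZFSet.{0} => IsName P (w 0) := by
  have hK := hZ.zf
  have hB := hK.base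
  have h1 := hK.nat_mem 1
  have h0 := hK.nat_mem 0
  have hd : DfnF S K fun w : Fin 1 → ZFSet.{0} => nmf P (w 0) := by
    refine hZ.wfrec dm_wf (hZ.dm' (DfnF.proj 0)) (G := fun x g => open Classical in
      if ∀ z ∈ x, ∃ y ∈ dm x, ∃ p ∈ P, z = pair y p ∧ ap g y = nat 1 then nat 1 else nat 0) ?_
      (nmf_eq P)
    refine DfnF.ite ?_ (hZ.const h1) (hZ.const h0)
    apply hB.ball (DfnF.proj 0)
    apply hB.bex (hZ.dm' (DfnF.proj 1))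
    have h2 : Dfn S K fun w : Fin 4 → ZFSet.{0} => ∃ p ∈ K, p ∈ P ∧
        w 1 = pair (w 0) p ∧ ap (w 3) (w 0) = nat 1 := by
      apply Dfn.ex
      apply Dfn.and
      · exact hP.comp ![0]
      · apply Dfn.and
        · exact Dfn.eq (DfnF.proj 2) (hB.pair' (DfnF.proj 1) (DfnF.proj 0))
        · exact Dfn.eq (hZ.ap' (DfnF.proj 4) (DfnF.proj 1)) (hZ.const h1)
    exact h2.congr fun v hv => ⟨fun ⟨p, _, h3, h4⟩ => ⟨p, h3, h4⟩,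
      fun ⟨p, h3, h4⟩ => ⟨p, hPK p h3, h3, h4⟩⟩
  exact (Dfn.eq hd (hZ.const h1)).congr fun w _ => nmf_iff P (w 0)

/-! ### Generic filters -/

/-- Generic filters exist if there are countably many classes. -/
theorem exists_gen (hc : {X | X ∈ C}.Countable) {P Le : ZFSet.{0}}
    (hP : IsClassForcing C P Le) {p₀ : ZFSet.{0}} (hp₀ : p₀ ∈ P) :
    ∃ G, IsGen C P Le G ∧ p₀ ∈ G := by
  classical
  have hne : {X | X ∈ C}.Nonempty := ⟨P, hP.mem⟩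
  obtain ⟨f, hf⟩ := hc.exists_eq_range hne
  -- the sequence
  let E : ZFSet.{0} → ZFSet.{0} → Prop := fun D q => q ∈ P ∧
    ((∀ p ∈ P, ∃ q ∈ P, q ∈ D ∧ pair q p ∈ Le) → q ∈ D)
  have hstep : ∀ (D : ZFSet.{0}) (p : {p // p ∈ P}), ∃ q : {p // p ∈ P},
      pair q.1 p.1 ∈ Le ∧ E D q.1 := by
    intro D p
    by_cases h : ∀ p ∈ P, ∃ q ∈ P, q ∈ D ∧ pair q p ∈ Le
    · obtain ⟨q, hq, hqD, hqp⟩ := h p.1 p.2
      exact ⟨⟨q, hq⟩, hqp, hq, fun _ => hqD⟩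
    · exact ⟨p, hP.refl _ p.2, p.2, fun h' => absurd h' h⟩
  choose g hg1 hg2 using hstep
  let s : ℕ → {p // p ∈ P} := fun n => Nat.rec ⟨p₀, hp₀⟩ (fun n p => g (f n) p) n
  have hs : ∀ n, pair (s (n + 1)).1 (s n).1 ∈ Le := fun n => hg1 _ _
  have hs' : ∀ m n, m ≤ n → pair (s n).1 (s m).1 ∈ Le := by
    intro m n h
    induction n, h using Nat.le_induction with
    | base => exact hP.refl _ (s m).2
    | succ n _ ih => exact hP.trans _ (s m).2 _ (s n).2 _ (s (n + 1)).2 (hs n) ih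
  let G := ZFSet.sep (fun p => ∃ n, pair (s n).1 p ∈ Le) P
  have hmem : ∀ p, p ∈ G ↔ p ∈ P ∧ ∃ n, pair (s n).1 p ∈ Le := fun p => ZFSet.mem_sep
  refine ⟨G, ⟨fun p hp => ((hmem p).1 hp).1, ⟨p₀, ?_⟩, ?_, ?_, ?_⟩, ?_⟩
  · exact (hmem _).2 ⟨hp₀, 0, hP.refl _ hp₀⟩
  · intro q hq p hp hqp
    obtain ⟨h1, n, h2⟩ := (hmem _).1 hq
    exact (hmem _).2 ⟨hp, n, hP.trans _ hp _ h1 _ (s n).2 h2 hqp⟩
  · intro p hp q hq
    obtain ⟨h1, n, h2⟩ := (hmem _).1 hp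
    obtain ⟨h3, m, h4⟩ := (hmem _).1 hq
    refine ⟨(s (max n m)).1, (hmem _).2 ⟨(s _).2, max n m, hP.refl _ (s _).2⟩, ?_, ?_⟩
    · exact hP.trans _ h1 _ (s n).2 _ (s _).2 (hs' _ _ (le_max_left _ _)) h2
    · exact hP.trans _ h3 _ (s m).2 _ (s _).2 (hs' _ _ (le_max_right _ _)) h4
  · intro D hD hDP hd
    have h1 : D ∈ Set.range f := hf ▸ hD
    obtain ⟨n, rfl⟩ := h1
    have h2 : (s (n + 1)).1 ∈ f n := by
      refine (hg2 (f n) (s n)).2 fun p hp => ?_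
      obtain ⟨q, hq, hqp⟩ := hd p hp
      exact ⟨q, hDP hq, hq, hqp⟩
    exact ⟨_, h2, (hmem _).2 ⟨(s (n + 1)).2, n + 1, hP.refl _ (s (n + 1)).2⟩⟩
  · exact (hmem _).2 ⟨hp₀, 0, hP.refl _ hp₀⟩

end Pool.Agent.W2helper52.CF
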