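import Pool.Agent.R597.GBDefs

/-!
# Class forcing over transitive models of `GBC`: the definitions

`Pool.Agent.R597.GBDefs` contains the transitive models `(M, C)` of `GB⁻` (`IsGB`), notions of
class forcing (`IsClassForcing`), generic filters (`IsGen`), the set `Mext M P G` of the values of
the names in `M`, and the forcing theorem (`ForcingThm`).
-/

set_option autoImplicit false

namespace Pool.Agent.W2helper52.CF

open Pool.Agent.W868 Pool.Agent.W868.GM Pool.Agent.R597
open ZFSet (pair)

/-- `(M, C)` is a transitive model of `GBC`: a transitive model of `GB⁻` that satisfies the power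
set axiom and has a class `W ∈ C` that is a well-order of `M`: a strict linear order of `M` such
that every nonempty set in `M` has a least element. -/
structure IsGBC (M C : ZFSet.{0}) : Prop extends IsGB M C where
  power : ∀ x ∈ M, ∃ y ∈ M, ∀ z, z ∈ y ↔ z ∈ M ∧ z ⊆ x
  wellOrder : ∃ W ∈ C, (∀ x ∈ M, pair x x ∉ W) ∧
    (∀ x ∈ M, ∀ y ∈ M, ∀ z ∈ M, pair x y ∈ W → pair y z ∈ W → pair x z ∈ W) ∧
    (∀ x ∈ M, ∀ y ∈ M, x = y ∨ pair x y ∈ W ∨ pair y x ∈ W) ∧
    ∀ x ∈ M, (∃ y, y ∈ x) → ∃ y ∈ x, ∀ z ∈ x, z = y ∨ pair y z ∈ W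

/-- The notion of class forcing preserves Separation: for all generic filters `G`, the set
`Mext M P G` satisfies the separation scheme for the formulas `φ` whose parameters are the values
of class names. The quantifiers of `φ` range over `Mext M P G`. -/
def PreservesSeparation (M C P Le : ZFSet.{0}) : Prop :=
  ∀ G, IsGen C P Le G → ∀ φ : Fml ZFSet.{0} 1, φ.Over {Γ | Γ ∈ C ∧ IsName P Γ} →
    ∀ x ∈ Mext M P G, ∃ y ∈ Mext M P G, ∀ z,
      z ∈ y ↔ z ∈ x ∧ Sat (Mext M P G) (ev G) φ ![z]

end Pool.Agent.W2helper52.CF
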