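import Pool.Agent.W2helper52.CF.Gd

/-!
# The forcing theorem for class forcings follows from the one for equality: formulas
-/

set_option autoImplicit false
set_option linter.unreachableTactic false
set_option linter.unusedTactic false
set_option linter.unusedSectionVars false
set_option linter.unusedVariables false

namespace Pool.Agent.W2helper52.CF

open Pool.Agent.W868 Pool.Agent.W868.GM Pool.Agent.Y588 Pool.Agent.R597
open ZFSet (pair)

theorem dfn_utS {S K : Set ZFSet.{0}} (hZ : ZS S K) {m : ℕ}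
    {F : (Fin m → ZFSet.{0}) → ZFSet.{0}} (hF : DfnF S K F) :
    ∀ (n : ℕ) (i : Fin n), DfnF S K fun v => ut n (F v) i := by
  intro n
  induction n generalizing m F with
  | zero => exact fun i => i.elim0
  | succ n ih =>
    intro i
    refine Fin.cases ?_ (fun i => ?_) i
    · exact hZ.fs' hF
    · exact ih (hZ.sn' hF) i

section

variable {M C P Le : ZFSet.{0}} (h : Cfs M C P Le) {n : ℕ}

include h

theorem Tm.var (i : Fin n) : Tm M C P n fun v => v i where
  d := Dfn.mem (h.zf.base.pair' (DfnF.proj 0) (DfnF.proj 1)) (DfnF.proj i.succ.succ)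
  nm v hv := ⟨(hv i).2, fun z hz => h.zf.trans _ (hv i).1 _ hz⟩

theorem Tm.const {Γ : ZFSet.{0}} (hΓ : Γ ∈ C) (hn : IsName P Γ) : Tm M C P n fun _ => Γ where
  d := Dfn.comp1 (Q := fun x => x ∈ Γ) (dfn_cls hΓ)
    (h.zf.base.pair' (DfnF.proj 0) (DfnF.proj 1))
  nm v hv := ⟨hn, h.gbc.classes _ hΓ⟩

omit h in
theorem Tm.tail {t : (Fin n → ZFSet.{0}) → ZFSet.{0}} (ht : Tm M C P n t) :
    Tm M C P (n + 1) fun v => t (Fin.tail v) where
  d := ht.d.comp (Fin.cons 0 (Fin.cons (Fin.succ 0) fun i : Fin n => i.succ.succ.succ) :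
    Fin (n + 2) → Fin (n + 3))
  nm v hv := ht.nm _ fun i => hv i.succ

variable (hE : Good M C P Le 2 fun v G => ev G (v 0) = ev G (v 1))

include hE

theorem good_memVar {t : (Fin n → ZFSet.{0}) → ZFSet.{0}} (ht : Tm M C P n t) :
    Good M C P Le (n + 1) fun v G => ev G (v 0) ∈ ev G (t (Fin.tail v)) := by
  have h1 := Good.bex h ht.tail (T := fun w G => ev G (w 0) = ev G (w (Fin.succ 0)))
    (Good.comp h hE ![0, Fin.succ 0])
  refine h1.congr fun v hv G hG => ?_
  rw [mem_ev]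
  exact Iff.rfl

theorem good_sub {t t' : (Fin n → ZFSet.{0}) → ZFSet.{0}} (ht : Tm M C P n t)
    (ht' : Tm M C P n t') :
    Good M C P Le n fun v G => ev G (t v) ⊆ ev G (t' v) := by
  have h1 := Good.not h (Good.bex h ht (Good.not h (good_memVar h hE ht')))
  refine h1.congr fun v hv G hG => ?_
  constructor
  · intro h2 z hz
    obtain ⟨τ, r, h3, h4, rfl⟩ := mem_ev.1 hz
    by_contra h5
    exact h2 ⟨τ, r, h3, h4, h5⟩
  · rintro h2 ⟨τ, r, h3, h4, h5⟩
    exact h5 (h2 (mem_ev.2 ⟨τ, r, h3, h4, rfl⟩))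

theorem good_eq {t t' : (Fin n → ZFSet.{0}) → ZFSet.{0}} (ht : Tm M C P n t)
    (ht' : Tm M C P n t') :
    Good M C P Le n fun v G => ev G (t v) = ev G (t' v) := by
  refine (Good.and h (good_sub h hE ht ht') (good_sub h hE ht' ht)).congr fun v hv G hG => ?_
  constructor
  · rintro ⟨h1, h2⟩
    ext z
    exact ⟨fun h3 => h1 h3, fun h3 => h2 h3⟩
  · intro h1
    rw [h1]
    exact ⟨fun _ h => h, fun _ h => h⟩

theorem good_mem {t t' : (Fin n → ZFSet.{0}) → ZFSet.{0}} (ht : Tm M C P n t)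
    (ht' : Tm M C P n t') :
    Good M C P Le n fun v G => ev G (t v) ∈ ev G (t' v) := by
  have h1 := Good.bex h ht' (good_eq h hE (Tm.var h (0 : Fin (n + 1))) ht.tail)
  refine h1.congr fun v hv G hG => ?_
  rw [mem_ev]
  exact Iff.rfl

omit h hE in
theorem elim_ev' (G : ZFSet.{0}) (v : Fin n → ZFSet.{0}) (s : Fin n ⊕ ZFSet.{0}) :
    Sum.elim (fun i => ev G (v i)) (ev G) s = ev G (Sum.elim v id s) := by
  cases s <;> rfl

omit hE in
theorem tm_of (s : Fin n ⊕ ZFSet.{0}) (hs : TOver {Γ | Γ ∈ C ∧ IsName P Γ} s) :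
    Tm M C P n fun v => Sum.elim v id s := by
  cases s with
  | inl i => exact Tm.var h i
  | inr a =>
    obtain ⟨h1, h2⟩ := hs a rfl
    exact Tm.const h h1 h2

/-- The forcing theorem for a formula. -/
theorem good_fml : {n : ℕ} → (φ : Fml ZFSet.{0} n) → φ.Over {Γ | Γ ∈ C ∧ IsName P Γ} →
    Good M C P Le n fun v G => Sat (Mext M P G) (ev G) φ fun i => ev G (v i)
  | _, .mem s t, hφ => by
    refine (good_mem h hE (tm_of h s hφ.1) (tm_of h t hφ.2)).congr fun v hv G hG => ?_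
    simp only [Sat, elim_ev']
  | _, .eq s t, hφ => by
    refine (good_eq h hE (tm_of h s hφ.1) (tm_of h t hφ.2)).congr fun v hv G hG => ?_
    simp only [Sat, elim_ev']
  | _, .neg φ, hφ => Good.not h (good_fml φ hφ)
  | _, .and φ ψ, hφ => Good.and h (good_fml φ hφ.1) (good_fml ψ hφ.2)
  | _, .ex φ, hφ => by
    refine (Good.ex h (good_fml φ hφ)).congr fun v hv G hG => ?_
    have h1 : ∀ τ, (fun i => ev G ((Fin.cons τ v : Fin (_ + 1) → ZFSet.{0}) i)) =
        Fin.cons (ev G τ) fun i => ev G (v i) := by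
      intro τ
      funext i
      refine Fin.cases ?_ (fun i => ?_) i
      · rfl
      · rfl
    simp only [Sat, h1]
    constructor
    · rintro ⟨τ, h2, h3⟩
      exact ⟨_, ⟨τ, h2.1, h2.2, rfl⟩, h3⟩
    · rintro ⟨_, ⟨τ, h2, h3, rfl⟩, h4⟩
      exact ⟨τ, ⟨h2, h3⟩, h4⟩

omit hE in
theorem dfn_tup' : {n m : ℕ} → (G : Fin n → (Fin m → ZFSet.{0}) → ZFSet.{0}) →
    (∀ i, DfnF {X | X ∈ C} {x | x ∈ M} (G i)) →
    DfnF {X | X ∈ C} {x | x ∈ M} fun w => tup fun i => G i w
  | 0, _, _, _ => h.zs.const h.zf.empty_mem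
  | n + 1, _, G, hG => h.zf.base.pair' (hG 0) (dfn_tup' (fun i => G i.succ) fun i => hG i.succ)

theorem forcingThm_of_eq : ForcingThm M C P Le := by
  have hM := h.zf
  constructor
  · intro n φ hφ
    have hg := good_fml h hE φ hφ
    have hut : ∀ i : Fin n, DfnF {X | X ∈ C} {x | x ∈ M} fun w : Fin 1 → ZFSet.{0} =>
        ut n (sn (w 0)) i := fun i => dfn_utS h.zs (h.zs.sn' (DfnF.proj 0)) n i
    have h1 := substN h.zs.sub hg.d (m := 1)
      (Fin.cons (fun w => fs (w 0)) fun i w => ut n (sn (w 0)) i) (fun i => by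
        refine Fin.cases ?_ (fun i => ?_) i
        · exact h.zs.fs' (DfnF.proj 0)
        · exact hut i)
    have h2 : Dfn {X | X ∈ C} {x | x ∈ M} fun w : Fin 1 → ZFSet.{0} =>
        w 0 = pair (fs (w 0)) (tup fun i => ut n (sn (w 0)) i) :=
      Dfn.eq (DfnF.proj 0) (hM.base.pair' (h.zs.fs' (DfnF.proj 0)) (dfn_tup' h _ hut))
    have h3 := cls_of h.gbc.toIsGB (Q := fun x => x = pair (fs x) (tup fun i => ut n (sn x) i) ∧
      ((∀ i : Fin n, IsName P (ut n (sn x) i)) ∧ fs x ∈ P ∧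
        Forces M C P Le φ (fun i => ut n (sn x) i) (fs x))) (h2.and h1)
    refine ⟨_, h3, fun x => ?_⟩
    rw [ZFSet.mem_sep]
    constructor
    · rintro ⟨hx, h4, h5, h6, h7⟩
      have hx' : x ∈ {x | x ∈ M} := hx
      refine ⟨fs x, h6, fun i => ut n (sn x) i, fun i => ⟨?_, h5 i⟩, h4, h7⟩
      exact (hut i).1 (fun _ => x) fun _ => hx'
    · rintro ⟨p, hp, v, hv, rfl, h4⟩
      refine ⟨?_, ?_⟩
      · exact hM.pair_mem (h.subM hp) (tup_mem_of hM.empty_mem (fun x hx y hy =>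
          hM.pair_mem hx hy) v fun i => (hv i).1)
      · rw [fs_pair, sn_pair, ut_tup]
        exact ⟨rfl, fun i => (hv i).2, hp, h4⟩
  · intro n φ hφ v hv G hG h1
    exact (good_fml h hE φ hφ).t v hv G hG h1

end

end Pool.Agent.W2helper52.CF
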