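import Pool.Agent.W2helper52.CF.Bas

/-!
# The forcing theorem for class forcings follows from the one for equality
-/

set_option autoImplicit false
set_option linter.unreachableTactic false
set_option linter.unusedTactic false
set_option linter.unusedSectionVars false
set_option linter.unusedVariables false

namespace Pool.Agent.W2helper52.CF

open Pool.Agent.W868 Pool.Agent.W868.GM Pool.Agent.Y588 Pool.Agent.R597
open ZFSet (pair)

theorem dfn_fin {S K : Set ZFSet.{0}} {m : ℕ} : ∀ {n : ℕ}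
    (R : Fin n → (Fin m → ZFSet.{0}) → Prop), (∀ i, Dfn S K (R i)) →
    Dfn S K fun v => ∀ i, R i v := by
  intro n
  induction n with
  | zero => exact fun R _ => Dfn.tt.congr fun v _ => ⟨fun _ i => i.elim0, fun _ => trivial⟩
  | succ n ih =>
    intro R hR
    exact ((hR 0).and (ih (fun i => R i.succ) fun i => hR i.succ)).congr fun v _ =>
      (Fin.forall_fin_succ (P := fun i => R i v)).symm

/-- A term with class parameters, evaluated at definable functions. -/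
theorem dfn_atom {S K : Set ZFSet.{0}} (hKS : K ⊆ S) {n m : ℕ}
    (A : Bool) (s t : Fin n ⊕ ZFSet.{0}) (hs : TOver S s) (ht : TOver S t)
    (G : Fin n → (Fin m → ZFSet.{0}) → ZFSet.{0}) (hG : ∀ i, DfnF S K (G i)) :
    Dfn S K fun w => if A then Sum.elim (fun i => G i w) id s ∈ Sum.elim (fun i => G i w) id t
      else Sum.elim (fun i => G i w) id s = Sum.elim (fun i => G i w) id t := by
  cases s with
  | inl i =>
    cases t with
    | inl j =>
      cases A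
      · exact Dfn.eq (hG i) (hG j)
      · exact Dfn.mem (hG i) (hG j)
    | inr b =>
      cases A
      · exact Dfn.comp1 (Q := fun x => x = b) ⟨.eq (Sum.inl 0) (Sum.inr b),
          ⟨TOver.inl _, tOver_inr.2 (ht b rfl)⟩, fun _ _ => Iff.rfl⟩ (hG i)
      · exact Dfn.comp1 (Q := fun x => x ∈ b) ⟨.mem (Sum.inl 0) (Sum.inr b),
          ⟨TOver.inl _, tOver_inr.2 (ht b rfl)⟩, fun _ _ => Iff.rfl⟩ (hG i)
  | inr a =>
    cases t with
    | inl j =>
      cases A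
      · exact Dfn.comp1 (Q := fun x => a = x) ⟨.eq (Sum.inr a) (Sum.inl 0),
          ⟨tOver_inr.2 (hs a rfl), TOver.inl _⟩, fun _ _ => Iff.rfl⟩ (hG j)
      · exact Dfn.comp1 (Q := fun x => a ∈ x) ⟨.mem (Sum.inr a) (Sum.inl 0),
          ⟨tOver_inr.2 (hs a rfl), TOver.inl _⟩, fun _ _ => Iff.rfl⟩ (hG j)
    | inr b =>
      cases A
      · exact (Dfn.prop (a = b)).congr fun _ _ => Iff.rfl
      · exact (Dfn.prop (a ∈ b)).congr fun _ _ => Iff.rfl

theorem dfn_sat' {S K : Set ZFSet.{0}} (hKS : K ⊆ S) : {n : ℕ} → (φ : Fml ZFSet.{0} n) →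
    φ.Over S → {m : ℕ} → (G : Fin n → (Fin m → ZFSet.{0}) → ZFSet.{0}) →
    (∀ i, DfnF S K (G i)) → Dfn S K fun w : Fin m → ZFSet.{0} => Sat K id φ fun i => G i w
  | n, .mem s t, h, m, G, hG => dfn_atom hKS true s t h.1 h.2 G hG
  | n, .eq s t, h, m, G, hG => (dfn_atom hKS false s t h.1 h.2 G hG).congr fun v _ => by
      simp only [Bool.false_eq_true, if_false, Sat]
  | n, .neg φ, h, m, G, hG => (dfn_sat' hKS φ h G hG).not
  | n, .and φ ψ, h, m, G, hG => (dfn_sat' hKS φ h.1 G hG).and (dfn_sat' hKS ψ h.2 G hG)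
  | n, .ex φ, h, m, G, hG => by
    have h1 : Dfn S K fun w : Fin m → ZFSet.{0} => ∃ a ∈ K,
        Sat K id φ (Fin.cons a fun i => G i w) := by
      apply Dfn.ex
      have h2 := dfn_sat' hKS φ h (m := m + 1)
        (Fin.cons (fun w => w 0) fun i w => G i (Fin.tail w)) (by
          intro i
          refine Fin.cases ?_ (fun i => ?_) i
          · exact DfnF.proj 0
          · exact (hG i).tail)
      refine h2.congr fun w _ => ?_
      have h3 : (fun i => (Fin.cons (fun w => w 0) (fun i w => G i (Fin.tail w)) :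
          Fin (n + 1) → (Fin (m + 1) → ZFSet.{0}) → ZFSet.{0}) i w) =
          Fin.cons (w 0) fun i => G i (Fin.tail w) := by
        funext i
        refine Fin.cases ?_ (fun i => ?_) i
        · rfl
        · rfl
      rw [h3]
    exact h1.congr fun w _ => Iff.rfl

theorem substN {S K : Set ZFSet.{0}} (hKS : K ⊆ S) {n m : ℕ}
    {R : (Fin n → ZFSet.{0}) → Prop} (hR : Dfn S K R)
    (G : Fin n → (Fin m → ZFSet.{0}) → ZFSet.{0}) (hG : ∀ i, DfnF S K (G i)) :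
    Dfn S K fun w => R fun i => G i w := by
  obtain ⟨φ, h1, h2⟩ := hR
  exact (dfn_sat' hKS φ h1 G hG).congr fun w hw => h2 _ fun i => (hG i).1 w hw

/-! ### Class forcings over the definable classes -/

/-- The assumptions on the class forcing. -/
structure Cfs (M C P Le : ZFSet.{0}) : Prop where
  gbc : IsGBC M C
  ctbl : {X | X ∈ C}.Countable
  cf : IsClassForcing C P Le

theorem Cfs.zs {M C P Le : ZFSet.{0}} (h : Cfs M C P Le) : ZS {X | X ∈ C} {x | x ∈ M} :=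
  zs_of_gbc h.gbc

theorem Cfs.zf {M C P Le : ZFSet.{0}} (h : Cfs M C P Le) : IsZF {x | x ∈ M} := h.zs.zf

/-- The condition `p` forces the statement `S` about the generic filter. -/
def Fo (M C P Le : ZFSet.{0}) (S : ZFSet.{0} → Prop) (p : ZFSet.{0}) : Prop :=
  ∀ G, IsGen C P Le G → p ∈ G → S G

/-- The forcing theorem for a statement with parameters that are names. -/
structure Good (M C P Le : ZFSet.{0}) (n : ℕ) (S : (Fin n → ZFSet.{0}) → ZFSet.{0} → Prop) :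
    Prop where
  d : Dfn {X | X ∈ C} {x | x ∈ M} fun w : Fin (n + 1) → ZFSet.{0} =>
    (∀ i : Fin n, IsName P (w i.succ)) ∧ w 0 ∈ P ∧ Fo M C P Le (S (Fin.tail w)) (w 0)
  t : ∀ v : Fin n → ZFSet.{0}, (∀ i, v i ∈ M ∧ IsName P (v i)) →
    ∀ G, IsGen C P Le G → S v G → ∃ p ∈ G, Fo M C P Le (S v) p

/-- The operations that give class names. -/
structure Tm (M C P : ZFSet.{0}) (n : ℕ) (t : (Fin n → ZFSet.{0}) → ZFSet.{0}) : Prop where
  d : Dfn {X | X ∈ C} {x | x ∈ M} fun w : Fin (n + 2) → ZFSet.{0} =>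
    pair (w 0) (w 1) ∈ t fun i => w i.succ.succ
  nm : ∀ v : Fin n → ZFSet.{0}, (∀ i, v i ∈ M ∧ IsName P (v i)) → IsName P (t v) ∧ t v ⊆ M

section

variable {M C P Le : ZFSet.{0}} (h : Cfs M C P Le)

include h

theorem Cfs.subM {p : ZFSet.{0}} (hp : p ∈ P) : p ∈ {x | x ∈ M} := h.gbc.classes _ h.cf.mem hp

theorem Cfs.dP : Dfn {X | X ∈ C} {x | x ∈ M} fun w : Fin 1 → ZFSet.{0} => w 0 ∈ P :=
  dfn_cls h.cf.mem

theorem Cfs.dL : Dfn {X | X ∈ C} {x | x ∈ M} fun w : Fin 2 → ZFSet.{0} =>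
    pair (w 0) (w 1) ∈ Le :=
  Dfn.comp1 (Q := fun x => x ∈ Le) (dfn_cls h.cf.le_mem)
    (h.zf.base.pair' (DfnF.proj 0) (DfnF.proj 1))

theorem Cfs.dN : Dfn {X | X ∈ C} {x | x ∈ M} fun w : Fin 1 → ZFSet.{0} => IsName P (w 0) :=
  dfn_isNameC h.zs (fun _ hp => h.subM hp) h.dP

theorem Cfs.dNs (n : ℕ) : Dfn {X | X ∈ C} {x | x ∈ M} fun w : Fin (n + 1) → ZFSet.{0} =>
    ∀ i : Fin n, IsName P (w i.succ) :=
  dfn_fin (fun i w => IsName P (w i.succ)) fun i => h.dN.comp fun _ => i.succ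

theorem Cfs.gen {p : ZFSet.{0}} (hp : p ∈ P) : ∃ G, IsGen C P Le G ∧ p ∈ G :=
  exists_gen h.ctbl h.cf hp

theorem Fo.mono {S : ZFSet.{0} → Prop} {p q : ZFSet.{0}} (hS : Fo M C P Le S p) (hp : p ∈ P)
    (hqp : pair q p ∈ Le) : Fo M C P Le S q :=
  fun G hG hq => hS G hG (hG.up q hq p hp hqp)

/-- A definable set that is dense below an element of the filter is met. -/
theorem Cfs.meet {G : ZFSet.{0}} (hG : IsGen C P Le G) {Q : ZFSet.{0} → Prop}
    (hQ : Dfn {X | X ∈ C} {x | x ∈ M} fun w : Fin 1 → ZFSet.{0} => Q (w 0)) {p : ZFSet.{0}}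
    (hp : p ∈ G) (hd : ∀ q ∈ P, pair q p ∈ Le → ∃ r ∈ P, pair r q ∈ Le ∧ Q r) :
    ∃ r ∈ G, Q r := by
  set K : Set ZFSet.{0} := {x | x ∈ M} with hK
  have hpP := hG.sub hp
  have hpK : p ∈ K := h.subM hpP
  have hdef : Dfn {X | X ∈ C} K fun w : Fin 1 → ZFSet.{0} => w 0 ∈ P ∧ (Q (w 0) ∨
      ¬ ∃ r ∈ K, r ∈ P ∧ pair r (w 0) ∈ Le ∧ pair r p ∈ Le) := by
    refine h.dP.and (hQ.or (Dfn.not ?_))
    apply Dfn.ex
    refine (h.dP.comp ![0]).and (Dfn.and ?_ ?_)
    · exact h.dL.comp ![0, 1]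
    · exact Dfn.comp2 (Q := fun a b => pair a b ∈ Le) h.dL (DfnF.proj 0) (h.zs.const hpK)
  obtain ⟨q, hq, hqG⟩ := hG.meet _ (cls_of h.gbc.toIsGB (Q := fun x => x ∈ P ∧ (Q x ∨
      ¬ ∃ r ∈ K, r ∈ P ∧ pair r x ∈ Le ∧ pair r p ∈ Le)) hdef)
      (fun z hz => (ZFSet.mem_sep.1 hz).2.1) (by
    intro q hq
    by_cases hc : ∃ r ∈ K, r ∈ P ∧ pair r q ∈ Le ∧ pair r p ∈ Le
    · obtain ⟨r, hr, hrP, h1, h2⟩ := hc
      obtain ⟨s, hs, h3, h4⟩ := hd r hrP h2
      exact ⟨s, ZFSet.mem_sep.2 ⟨h.subM hs, hs, Or.inl h4⟩, h.cf.trans _ hq _ hrP _ hs h3 h1⟩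
    · exact ⟨q, ZFSet.mem_sep.2 ⟨h.subM hq, hq, Or.inr hc⟩, h.cf.refl q hq⟩)
  obtain ⟨-, hqP, h1⟩ := ZFSet.mem_sep.1 hq
  rcases h1 with h1 | h1
  · exact ⟨q, hqG, h1⟩
  · obtain ⟨r, hr, h2, h3⟩ := hG.dir _ hqG _ hp
    exact absurd ⟨r, h.subM (hG.sub hr), hG.sub hr, h2, h3⟩ h1

variable {n : ℕ}

omit h in
theorem Good.congr {S T : (Fin n → ZFSet.{0}) → ZFSet.{0} → Prop} (hS : Good M C P Le n S)
    (he : ∀ v, (∀ i, v i ∈ M ∧ IsName P (v i)) → ∀ G, IsGen C P Le G →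
      (S v G ↔ T v G)) : Good M C P Le n T where
  d := by
    refine hS.d.congr fun w hw => and_congr_right fun h1 => and_congr_right fun _ => ?_
    exact forall_congr' fun G => forall_congr' fun hG => imp_congr_right fun _ =>
      he _ (fun i => ⟨hw _, h1 i⟩) G hG
  t v hv G hG h1 := by
    obtain ⟨p, hp, h2⟩ := hS.t v hv G hG ((he v hv G hG).2 h1)
    exact ⟨p, hp, fun G' hG' hp' => (he v hv G' hG').1 (h2 G' hG' hp')⟩

/-- The definability for fixed names. -/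
theorem Good.fix {S : (Fin n → ZFSet.{0}) → ZFSet.{0} → Prop} (hS : Good M C P Le n S)
    {v : Fin n → ZFSet.{0}} (hv : ∀ i, v i ∈ M ∧ IsName P (v i)) :
    Dfn {X | X ∈ C} {x | x ∈ M} fun w : Fin 1 → ZFSet.{0} => w 0 ∈ P ∧ Fo M C P Le (S v) (w 0) := by
  have h1 := substN h.zs.sub hS.d (m := 1)
    (Fin.cons (fun w => w 0) fun i _ => v i) (fun i => by
      refine Fin.cases ?_ (fun i => ?_) i
      · exact DfnF.proj 0
      · exact h.zs.const (show v i ∈ {x | x ∈ M} from (hv i).1))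
  refine h1.congr fun w _ => ?_
  have h2 : (Fin.tail fun i => (Fin.cons (fun w => w 0) (fun i _ => v i) :
      Fin (n + 1) → (Fin 1 → ZFSet.{0}) → ZFSet.{0}) i w) = v := by
    funext i
    rfl
  rw [h2]
  constructor
  · rintro ⟨-, h3⟩
    exact h3
  · exact fun h3 => ⟨fun i => (hv i).2, h3⟩

theorem Good.not {S : (Fin n → ZFSet.{0}) → ZFSet.{0} → Prop} (hS : Good M C P Le n S) :
    Good M C P Le n fun v G => ¬ S v G := by
  have key : ∀ v : Fin n → ZFSet.{0}, (∀ i, v i ∈ M ∧ IsName P (v i)) → ∀ p ∈ P,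
      (Fo M C P Le (fun G => ¬ S v G) p ↔ ∀ q ∈ P, pair q p ∈ Le → ¬ Fo M C P Le (S v) q) := by
    intro v hv p hp
    constructor
    · intro h1 q hq hqp h2
      obtain ⟨G, hG, hqG⟩ := h.gen hq
      exact h1 G hG (hG.up q hqG p hp hqp) (h2 G hG hqG)
    · intro h1 G hG hpG h2
      obtain ⟨r, hr, h3⟩ := hS.t v hv G hG h2
      obtain ⟨q, hq, h4, h5⟩ := hG.dir _ hr _ hpG
      exact h1 q (hG.sub hq) h5 (Fo.mono h h3 (hG.sub hr) h4)
  constructor
  · have h1 : Dfn {X | X ∈ C} {x | x ∈ M} fun w : Fin (n + 1) → ZFSet.{0} =>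
        (∀ i : Fin n, IsName P (w i.succ)) ∧ w 0 ∈ P ∧ ∀ q ∈ {x | x ∈ M},
          (q ∈ P ∧ pair q (w 0) ∈ Le) → ¬ ((∀ i : Fin n, IsName P (w i.succ)) ∧ q ∈ P ∧
            Fo M C P Le (S (Fin.tail w)) q) := by
      refine (h.dNs n).and ((h.dP.comp ![0]).and ?_)
      apply Dfn.all
      refine Dfn.imp ((h.dP.comp ![0]).and (h.dL.comp ![0, 1])) (Dfn.not ?_)
      exact hS.d.comp (Fin.cons 0 fun i : Fin n => i.succ.succ : Fin (n + 1) → Fin (n + 2))
    refine h1.congr fun w hw => and_congr_right fun h2 => and_congr_right fun h3 => ?_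
    rw [key (Fin.tail w) (fun i => ⟨hw _, h2 i⟩) _ h3]
    constructor
    · intro h4 q hq hqp h5
      exact h4 q (h.subM hq) ⟨hq, hqp⟩ ⟨h2, hq, h5⟩
    · intro h4 q _ hq h5
      exact h4 q hq.1 hq.2 h5.2.2
  · intro v hv G hG h1
    obtain ⟨p, hp⟩ := hG.nonempty
    have h0 := (Good.fix h hS hv)
    have h2 : Dfn {X | X ∈ C} {x | x ∈ M} fun w : Fin 1 → ZFSet.{0} =>
        (w 0 ∈ P ∧ Fo M C P Le (S v) (w 0)) ∨ ∀ q ∈ {x | x ∈ M}, (q ∈ P ∧ pair q (w 0) ∈ Le) →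
          ¬ (q ∈ P ∧ Fo M C P Le (S v) q) := by
      refine h0.or ?_
      apply Dfn.all
      exact Dfn.imp ((h.dP.comp ![0]).and (h.dL.comp ![0, 1])) (h0.comp ![0]).not
    obtain ⟨r, hr, h3⟩ := h.meet hG (Q := fun r => (r ∈ P ∧ Fo M C P Le (S v) r) ∨
        ∀ q ∈ {x | x ∈ M}, (q ∈ P ∧ pair q r ∈ Le) → ¬ (q ∈ P ∧ Fo M C P Le (S v) q)) h2 hp (by
      intro q hq hqp
      by_cases hc : ∃ r ∈ P, pair r q ∈ Le ∧ Fo M C P Le (S v) r
      · obtain ⟨r, hr, h3, h4⟩ := hc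
        exact ⟨r, hr, h3, Or.inl ⟨hr, h4⟩⟩
      · refine ⟨q, hq, h.cf.refl q hq, Or.inr fun r _ hr h4 => hc ⟨r, hr.1, hr.2, h4.2⟩⟩)
    refine ⟨r, hr, ?_⟩
    rcases h3 with ⟨-, h3⟩ | h3
    · exact absurd (h3 G hG hr) h1
    · refine (key v hv r (hG.sub hr)).2 fun q hq hqr h4 => ?_
      exact h3 q (h.subM hq) ⟨hq, hqr⟩ ⟨hq, h4⟩

theorem Good.and {S T : (Fin n → ZFSet.{0}) → ZFSet.{0} → Prop} (hS : Good M C P Le n S)
    (hT : Good M C P Le n T) : Good M C P Le n fun v G => S v G ∧ T v G := by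
  constructor
  · refine (hS.d.and hT.d).congr fun w hw => ?_
    constructor
    · rintro ⟨⟨h1, h2, h3⟩, -, -, h4⟩
      exact ⟨h1, h2, fun G hG hp => ⟨h3 G hG hp, h4 G hG hp⟩⟩
    · rintro ⟨h1, h2, h3⟩
      exact ⟨⟨h1, h2, fun G hG hp => (h3 G hG hp).1⟩, h1, h2, fun G hG hp => (h3 G hG hp).2⟩
  · rintro v hv G hG ⟨h1, h2⟩
    obtain ⟨p, hp, h3⟩ := hS.t v hv G hG h1
    obtain ⟨q, hq, h4⟩ := hT.t v hv G hG h2
    obtain ⟨r, hr, h5, h6⟩ := hG.dir _ hp _ hq
    exact ⟨r, hr, fun G' hG' hr' => ⟨h3 G' hG' (hG'.up _ hr' _ (hG.sub hp) h5),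
      h4 G' hG' (hG'.up _ hr' _ (hG.sub hq) h6)⟩⟩

theorem Good.comp {S : (Fin n → ZFSet.{0}) → ZFSet.{0} → Prop} (hS : Good M C P Le n S) {m : ℕ}
    (ρ : Fin n → Fin m) : Good M C P Le m fun v G => S (fun i => v (ρ i)) G := by
  constructor
  · have h1 := hS.d.comp (Fin.cons 0 fun i : Fin n => (ρ i).succ : Fin (n + 1) → Fin (m + 1))
    refine ((h.dNs m).and h1).congr fun w hw => ?_
    constructor
    · rintro ⟨h2, -, h3, h4⟩
      exact ⟨h2, h3, h4⟩
    · rintro ⟨h2, h3, h4⟩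
      exact ⟨h2, fun i => h2 (ρ i), h3, h4⟩
  · intro v hv G hG h1
    exact hS.t _ (fun i => hv (ρ i)) G hG h1

/-- Bounded quantification. -/
theorem Good.bex {t : (Fin n → ZFSet.{0}) → ZFSet.{0}} (ht : Tm M C P n t)
    {T : (Fin (n + 1) → ZFSet.{0}) → ZFSet.{0} → Prop} (hT : Good M C P Le (n + 1) T) :
    Good M C P Le n fun v G => ∃ τ r, pair τ r ∈ t v ∧ r ∈ G ∧ T (Fin.cons τ v) G := by
  have hnm : ∀ v : Fin n → ZFSet.{0}, (∀ i, v i ∈ M ∧ IsName P (v i)) → ∀ τ r,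
      pair τ r ∈ t v → τ ∈ {x | x ∈ M} ∧ IsName P τ ∧ r ∈ {x | x ∈ M} ∧ r ∈ P ∧
        ∀ i, (Fin.cons τ v : Fin (n + 1) → ZFSet.{0}) i ∈ M ∧
          IsName P ((Fin.cons τ v : Fin (n + 1) → ZFSet.{0}) i) := by
    intro v hv τ r h1
    obtain ⟨h2, h3⟩ := ht.nm v hv
    obtain ⟨τ', -, r', hr', h4, h5⟩ := isName_iff.1 h2 _ h1
    obtain ⟨rfl, rfl⟩ := ZFSet.pair_inj.1 h4
    have h6 : pair τ r ∈ {x | x ∈ M} := h3 h1
    have h7 := h.zf.of_pair_mem h6
    refine ⟨h7.1, h5, h7.2, hr', fun i => ?_⟩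
    refine Fin.cases ?_ (fun i => ?_) i
    · exact ⟨h7.1, h5⟩
    · exact hv i
  have key : ∀ v : Fin n → ZFSet.{0}, (∀ i, v i ∈ M ∧ IsName P (v i)) → ∀ p ∈ P,
      (Fo M C P Le (fun G => ∃ τ r, pair τ r ∈ t v ∧ r ∈ G ∧ T (Fin.cons τ v) G) p ↔
        ∀ q ∈ P, pair q p ∈ Le → ∃ r ∈ P, pair r q ∈ Le ∧ ∃ τ s, pair τ s ∈ t v ∧
          pair r s ∈ Le ∧ Fo M C P Le (T (Fin.cons τ v)) r) := by
    intro v hv p hp
    constructor
    · intro h1 q hq hqp
      obtain ⟨G, hG, hqG⟩ := h.gen hq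
      obtain ⟨τ, s, h2, h3, h4⟩ := h1 G hG (hG.up q hqG p hp hqp)
      obtain ⟨r, hr, h5⟩ := hT.t _ (hnm v hv τ s h2).2.2.2.2 G hG h4
      obtain ⟨r₁, hr₁, h6, h7⟩ := hG.dir _ hr _ h3
      obtain ⟨r₂, hr₂, h8, h9⟩ := hG.dir _ hr₁ _ hqG
      have hr₂P := hG.sub hr₂
      have hr₁P := hG.sub hr₁
      exact ⟨r₂, hr₂P, h9, τ, s, h2, h.cf.trans _ (hG.sub h3) _ hr₁P _ hr₂P h8 h7,
        Fo.mono h h5 (hG.sub hr) (h.cf.trans _ (hG.sub hr) _ hr₁P _ hr₂P h8 h6)⟩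
    · intro h1 G hG hpG
      have hQ : Dfn {X | X ∈ C} {x | x ∈ M} fun w : Fin 1 → ZFSet.{0} => w 0 ∈ P ∧
          ∃ τ ∈ {x | x ∈ M}, ∃ s ∈ {x | x ∈ M}, pair τ s ∈ t v ∧ pair (w 0) s ∈ Le ∧
            Fo M C P Le (T (Fin.cons τ v)) (w 0) := by
        have hv' : ∀ i, v i ∈ {x | x ∈ M} := fun i => (hv i).1
        have hQ' : Dfn {X | X ∈ C} {x | x ∈ M} fun w : Fin 1 → ZFSet.{0} => w 0 ∈ P ∧
            ∃ τ ∈ {x | x ∈ M}, ∃ s ∈ {x | x ∈ M}, pair τ s ∈ t v ∧ pair (w 0) s ∈ Le ∧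
            ((∀ i : Fin (n + 1), IsName P ((Fin.cons τ v : Fin (n + 1) → ZFSet.{0}) i)) ∧
              w 0 ∈ P ∧ Fo M C P Le (T (Fin.cons τ v)) (w 0)) := by
          refine h.dP.and ?_
          apply Dfn.ex
          apply Dfn.ex
          refine Dfn.and ?_ (Dfn.and ?_ ?_)
          · have h2 := substN h.zs.sub ht.d (m := 3)
              (Fin.cons (fun w => w 1) (Fin.cons (fun w => w 0) fun i _ => v i)) (fun i => by
                refine Fin.cases ?_ (fun i => ?_) i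
                · exact DfnF.proj 1
                · refine Fin.cases ?_ (fun i => ?_) i
                  · exact DfnF.proj 0
                  · exact h.zs.const (hv' i))
            exact h2
          · exact h.dL.comp ![2, 0]
          · have h2 := substN h.zs.sub hT.d (m := 3)
              (Fin.cons (fun w => w 2) (Fin.cons (fun w => w 1) fun i _ => v i)) (fun i => by
                refine Fin.cases ?_ (fun i => ?_) i
                · exact DfnF.proj 2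
                · refine Fin.cases ?_ (fun i => ?_) i
                  · exact DfnF.proj 1
                  · exact h.zs.const (hv' i))
            refine h2.congr fun w _ => ?_
            have h3 : (Fin.tail fun i => (Fin.cons (fun w => w 2) (Fin.cons (fun w => w 1)
                fun i _ => v i) : Fin (n + 2) → (Fin 3 → ZFSet.{0}) → ZFSet.{0}) i w) =
                Fin.cons (w 1) v := by
              funext i
              refine Fin.cases ?_ (fun i => ?_) i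
              · rfl
              · rfl
            rw [h3]
            have h4 : (∀ i : Fin (n + 1), IsName P ((Fin.cons (fun w => w 2)
                (Fin.cons (fun w => w 1) fun i _ => v i) :
                Fin (n + 2) → (Fin 3 → ZFSet.{0}) → ZFSet.{0}) i.succ w)) ↔
                ∀ i : Fin (n + 1), IsName P ((Fin.cons (w 1) v : Fin (n + 1) → ZFSet.{0}) i) := by
              refine forall_congr' fun i => ?_
              refine Fin.cases ?_ (fun i => ?_) i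
              · exact Iff.rfl
              · exact Iff.rfl
            rw [h4]
            exact Iff.rfl
        refine hQ'.congr fun w _ => and_congr_right fun h3 => ?_
        refine exists_congr fun τ => and_congr_right fun _ => exists_congr fun s =>
          and_congr_right fun _ => and_congr_right fun h4 => and_congr_right fun _ => ?_
        exact ⟨fun h5 => h5.2.2, fun h5 => ⟨fun i => ((hnm v hv τ s h4).2.2.2.2 i).2, h3, h5⟩⟩
      obtain ⟨r, hr, h2, τ, -, s, -, h3, h4, h5⟩ := h.meet hG (Q := fun r => r ∈ P ∧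
          ∃ τ ∈ {x | x ∈ M}, ∃ s ∈ {x | x ∈ M}, pair τ s ∈ t v ∧ pair r s ∈ Le ∧
            Fo M C P Le (T (Fin.cons τ v)) r) hQ hpG (by
        intro q hq hqp
        obtain ⟨r, hr, h2, τ, s, h3, h4, h5⟩ := h1 q hq hqp
        have h6 := hnm v hv τ s h3
        exact ⟨r, hr, h2, hr, τ, h6.1, s, h6.2.2.1, h3, h4, h5⟩)
      exact ⟨τ, s, h3, hG.up r hr s (hnm v hv τ s h3).2.2.2.1 h4, h5 G hG hr⟩
  constructor
  · have h1 : Dfn {X | X ∈ C} {x | x ∈ M} fun w : Fin (n + 1) → ZFSet.{0} =>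
        (∀ i : Fin n, IsName P (w i.succ)) ∧ w 0 ∈ P ∧ ∀ q ∈ {x | x ∈ M},
          (q ∈ P ∧ pair q (w 0) ∈ Le) → ∃ r ∈ {x | x ∈ M}, (r ∈ P ∧ pair r q ∈ Le) ∧
            ∃ τ ∈ {x | x ∈ M}, ∃ s ∈ {x | x ∈ M}, pair τ s ∈ t (Fin.tail w) ∧
              pair r s ∈ Le ∧ ((∀ i : Fin (n + 1), IsName P ((Fin.cons τ (Fin.tail w) :
                Fin (n + 1) → ZFSet.{0}) i)) ∧ r ∈ P ∧
                  Fo M C P Le (T (Fin.cons τ (Fin.tail w))) r) := by
      refine (h.dNs n).and ((h.dP.comp ![0]).and ?_)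
      apply Dfn.all
      refine Dfn.imp ((h.dP.comp ![0]).and (h.dL.comp ![0, 1])) ?_
      apply Dfn.ex
      refine ((h.dP.comp ![0]).and (h.dL.comp ![0, 1])).and ?_
      apply Dfn.ex
      apply Dfn.ex
      -- the variables are `s, τ, r, q, w 0, ...`
      refine Dfn.and ?_ (Dfn.and ?_ ?_)
      · exact ht.d.comp (Fin.cons 1 (Fin.cons 0 fun i : Fin n => i.succ.succ.succ.succ.succ) :
          Fin (n + 2) → Fin (n + 5))
      · exact h.dL.comp ![2, 0]
      · have h2 := hT.d.comp (Fin.cons 2 (Fin.cons 1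
          fun i : Fin n => i.succ.succ.succ.succ.succ) : Fin (n + 2) → Fin (n + 5))
        refine h2.congr fun w _ => ?_
        have h3 : (Fin.tail fun i => w ((Fin.cons 2 (Fin.cons 1
            fun i : Fin n => i.succ.succ.succ.succ.succ) : Fin (n + 2) → Fin (n + 5)) i)) =
            Fin.cons (w 1) (Fin.tail (Fin.tail (Fin.tail (Fin.tail (Fin.tail w))))) := by
          funext i
          refine Fin.cases ?_ (fun i => ?_) i
          · rfl
          · rfl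
        rw [h3]
        have h4 : (∀ i : Fin (n + 1), IsName P (w ((Fin.cons 2 (Fin.cons 1
            fun i : Fin n => i.succ.succ.succ.succ.succ) : Fin (n + 2) → Fin (n + 5)) i.succ))) ↔
            ∀ i : Fin (n + 1), IsName P ((Fin.cons (w 1)
              (Fin.tail (Fin.tail (Fin.tail (Fin.tail (Fin.tail w))))) :
              Fin (n + 1) → ZFSet.{0}) i) := by
          refine forall_congr' fun i => ?_
          refine Fin.cases ?_ (fun i => ?_) i
          · exact Iff.rfl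
          · exact Iff.rfl
        rw [h4]
        exact Iff.rfl
    refine h1.congr fun w hw => and_congr_right fun h2 => and_congr_right fun h3 => ?_
    have hv : ∀ i, Fin.tail w i ∈ M ∧ IsName P (Fin.tail w i) := fun i => ⟨hw _, h2 i⟩
    rw [key (Fin.tail w) hv _ h3]
    constructor
    · intro h4 q hq hqp
      obtain ⟨r, -, ⟨hr, h5⟩, τ, -, s, -, h6, h7, h8⟩ := h4 q (h.subM hq) ⟨hq, hqp⟩
      exact ⟨r, hr, h5, τ, s, h6, h7, h8.2.2⟩
    · rintro h4 q - ⟨hq, hqp⟩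
      obtain ⟨r, hr, h5, τ, s, h6, h7, h8⟩ := h4 q hq hqp
      have h9 := hnm _ hv τ s h6
      exact ⟨r, h.subM hr, ⟨hr, h5⟩, τ, h9.1, s, h9.2.2.1, h6, h7,
        fun i => (h9.2.2.2.2 i).2, hr, h8⟩
  · rintro v hv G hG ⟨τ, s, h1, h2, h3⟩
    have h4 := hnm v hv τ s h1
    obtain ⟨p, hp, h5⟩ := hT.t _ h4.2.2.2.2 G hG h3
    obtain ⟨r, hr, h6, h7⟩ := hG.dir _ hp _ h2
    exact ⟨r, hr, fun G' hG' hr' => ⟨τ, s, h1, hG'.up _ hr' _ h4.2.2.2.1 h7,
      h5 G' hG' (hG'.up _ hr' _ (hG.sub hp) h6)⟩⟩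

/-- Unbounded quantification. -/
theorem Good.ex {T : (Fin (n + 1) → ZFSet.{0}) → ZFSet.{0} → Prop}
    (hT : Good M C P Le (n + 1) T) :
    Good M C P Le n fun v G => ∃ τ, (τ ∈ M ∧ IsName P τ) ∧ T (Fin.cons τ v) G := by
  have hnm : ∀ v : Fin n → ZFSet.{0}, (∀ i, v i ∈ M ∧ IsName P (v i)) → ∀ τ,
      (τ ∈ M ∧ IsName P τ) → ∀ i, (Fin.cons τ v : Fin (n + 1) → ZFSet.{0}) i ∈ M ∧
          IsName P ((Fin.cons τ v : Fin (n + 1) → ZFSet.{0}) i) := by
    intro v hv τ h1 i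
    refine Fin.cases ?_ (fun i => ?_) i
    · exact h1
    · exact hv i
  have key : ∀ v : Fin n → ZFSet.{0}, (∀ i, v i ∈ M ∧ IsName P (v i)) → ∀ p ∈ P,
      (Fo M C P Le (fun G => ∃ τ, (τ ∈ M ∧ IsName P τ) ∧ T (Fin.cons τ v) G) p ↔
        ∀ q ∈ P, pair q p ∈ Le → ∃ r ∈ P, pair r q ∈ Le ∧ ∃ τ, (τ ∈ M ∧ IsName P τ) ∧
          Fo M C P Le (T (Fin.cons τ v)) r) := by
    intro v hv p hp
    constructor
    · intro h1 q hq hqp
      obtain ⟨G, hG, hqG⟩ := h.gen hq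
      obtain ⟨τ, h2, h4⟩ := h1 G hG (hG.up q hqG p hp hqp)
      obtain ⟨r, hr, h5⟩ := hT.t _ (hnm v hv τ h2) G hG h4
      obtain ⟨r₂, hr₂, h8, h9⟩ := hG.dir _ hr _ hqG
      exact ⟨r₂, hG.sub hr₂, h9, τ, h2, Fo.mono h h5 (hG.sub hr) h8⟩
    · intro h1 G hG hpG
      have hQ : Dfn {X | X ∈ C} {x | x ∈ M} fun w : Fin 1 → ZFSet.{0} => w 0 ∈ P ∧
          ∃ τ ∈ {x | x ∈ M}, IsName P τ ∧ Fo M C P Le (T (Fin.cons τ v)) (w 0) := by
        have hv' : ∀ i, v i ∈ {x | x ∈ M} := fun i => (hv i).1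
        have hQ' : Dfn {X | X ∈ C} {x | x ∈ M} fun w : Fin 1 → ZFSet.{0} => w 0 ∈ P ∧
            ∃ τ ∈ {x | x ∈ M}, IsName P τ ∧
            ((∀ i : Fin (n + 1), IsName P ((Fin.cons τ v : Fin (n + 1) → ZFSet.{0}) i)) ∧
              w 0 ∈ P ∧ Fo M C P Le (T (Fin.cons τ v)) (w 0)) := by
          refine h.dP.and ?_
          apply Dfn.ex
          refine (h.dN.comp ![0]).and ?_
          have h2 := substN h.zs.sub hT.d (m := 2)
              (Fin.cons (fun w => w 1) (Fin.cons (fun w => w 0) fun i _ => v i)) (fun i => by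
                refine Fin.cases ?_ (fun i => ?_) i
                · exact DfnF.proj 1
                · refine Fin.cases ?_ (fun i => ?_) i
                  · exact DfnF.proj 0
                  · exact h.zs.const (hv' i))
          refine h2.congr fun w _ => ?_
          have h3 : (Fin.tail fun i => (Fin.cons (fun w => w 1) (Fin.cons (fun w => w 0)
              fun i _ => v i) : Fin (n + 2) → (Fin 2 → ZFSet.{0}) → ZFSet.{0}) i w) =
              Fin.cons (w 0) v := by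
            funext i
            refine Fin.cases ?_ (fun i => ?_) i
            · rfl
            · rfl
          rw [h3]
          have h4 : (∀ i : Fin (n + 1), IsName P ((Fin.cons (fun w => w 1)
              (Fin.cons (fun w => w 0) fun i _ => v i) :
              Fin (n + 2) → (Fin 2 → ZFSet.{0}) → ZFSet.{0}) i.succ w)) ↔
              ∀ i : Fin (n + 1), IsName P ((Fin.cons (w 0) v : Fin (n + 1) → ZFSet.{0}) i) := by
            refine forall_congr' fun i => ?_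
            refine Fin.cases ?_ (fun i => ?_) i
            · exact Iff.rfl
            · exact Iff.rfl
          rw [h4]
          exact Iff.rfl
        refine hQ'.congr fun w _ => and_congr_right fun h3 => ?_
        refine exists_congr fun τ => and_congr_right fun h5 => and_congr_right fun h4 => ?_
        exact ⟨fun h5 => h5.2.2, fun h6 => ⟨fun i => (hnm v hv τ ⟨h5, h4⟩ i).2, h3, h6⟩⟩
      obtain ⟨r, hr, h2, τ, h3, h4, h5⟩ := h.meet hG (Q := fun r => r ∈ P ∧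
          ∃ τ ∈ {x | x ∈ M}, IsName P τ ∧ Fo M C P Le (T (Fin.cons τ v)) r) hQ hpG (by
        intro q hq hqp
        obtain ⟨r, hr, h2, τ, h3, h5⟩ := h1 q hq hqp
        exact ⟨r, hr, h2, hr, τ, h3.1, h3.2, h5⟩)
      exact ⟨τ, ⟨h3, h4⟩, h5 G hG hr⟩
  constructor
  · have h1 : Dfn {X | X ∈ C} {x | x ∈ M} fun w : Fin (n + 1) → ZFSet.{0} =>
        (∀ i : Fin n, IsName P (w i.succ)) ∧ w 0 ∈ P ∧ ∀ q ∈ {x | x ∈ M},
          (q ∈ P ∧ pair q (w 0) ∈ Le) → ∃ r ∈ {x | x ∈ M}, (r ∈ P ∧ pair r q ∈ Le) ∧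
            ∃ τ ∈ {x | x ∈ M}, IsName P τ ∧
              ((∀ i : Fin (n + 1), IsName P ((Fin.cons τ (Fin.tail w) :
                Fin (n + 1) → ZFSet.{0}) i)) ∧ r ∈ P ∧
                  Fo M C P Le (T (Fin.cons τ (Fin.tail w))) r) := by
      refine (h.dNs n).and ((h.dP.comp ![0]).and ?_)
      apply Dfn.all
      refine Dfn.imp ((h.dP.comp ![0]).and (h.dL.comp ![0, 1])) ?_
      apply Dfn.ex
      refine ((h.dP.comp ![0]).and (h.dL.comp ![0, 1])).and ?_
      apply Dfn.ex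
      refine (h.dN.comp ![0]).and ?_
      have h2 := hT.d.comp (Fin.cons 1 (Fin.cons 0
          fun i : Fin n => i.succ.succ.succ.succ) : Fin (n + 2) → Fin (n + 4))
      refine h2.congr fun w _ => ?_
      have h3 : (Fin.tail fun i => w ((Fin.cons 1 (Fin.cons 0
          fun i : Fin n => i.succ.succ.succ.succ) : Fin (n + 2) → Fin (n + 4)) i)) =
          Fin.cons (w 0) (Fin.tail (Fin.tail (Fin.tail (Fin.tail w)))) := by
        funext i
        refine Fin.cases ?_ (fun i => ?_) i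
        · rfl
        · rfl
      rw [h3]
      have h4 : (∀ i : Fin (n + 1), IsName P (w ((Fin.cons 1 (Fin.cons 0
          fun i : Fin n => i.succ.succ.succ.succ) : Fin (n + 2) → Fin (n + 4)) i.succ))) ↔
          ∀ i : Fin (n + 1), IsName P ((Fin.cons (w 0)
            (Fin.tail (Fin.tail (Fin.tail (Fin.tail w)))) :
            Fin (n + 1) → ZFSet.{0}) i) := by
        refine forall_congr' fun i => ?_
        refine Fin.cases ?_ (fun i => ?_) i
        · exact Iff.rfl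
        · exact Iff.rfl
      rw [h4]
      exact Iff.rfl
    refine h1.congr fun w hw => and_congr_right fun h2 => and_congr_right fun h3 => ?_
    have hv : ∀ i, Fin.tail w i ∈ M ∧ IsName P (Fin.tail w i) := fun i => ⟨hw _, h2 i⟩
    rw [key (Fin.tail w) hv _ h3]
    constructor
    · intro h4 q hq hqp
      obtain ⟨r, -, ⟨hr, h5⟩, τ, h6, h7, h8⟩ := h4 q (h.subM hq) ⟨hq, hqp⟩
      exact ⟨r, hr, h5, τ, ⟨h6, h7⟩, h8.2.2⟩
    · rintro h4 q - ⟨hq, hqp⟩
      obtain ⟨r, hr, h5, τ, h6, h8⟩ := h4 q hq hqp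
      exact ⟨r, h.subM hr, ⟨hr, h5⟩, τ, h6.1, h6.2, fun i => (hnm _ hv τ h6 i).2, hr, h8⟩
  · rintro v hv G hG ⟨τ, h1, h3⟩
    obtain ⟨p, hp, h5⟩ := hT.t _ (hnm v hv τ h1) G hG h3
    exact ⟨p, hp, fun G' hG' hr' => ⟨τ, h1, h5 G' hG' hr'⟩⟩

end


end Pool.Agent.W2helper52.CF
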