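import Pool.Agent.W2helper52.CF.Sp

/-!
# Class forcings that preserve Separation are pretame: the proof
-/

set_option autoImplicit false
set_option linter.unreachableTactic false
set_option linter.unusedTactic false
set_option linter.unusedSectionVars false
set_option linter.unusedVariables false

namespace Pool.Agent.W2helper52.CF

open Pool.Agent.W868 Pool.Agent.W868.GM Pool.Agent.Y588 Pool.Agent.R597
open ZFSet (pair)

/-- The pair `w = (i, d)` is a possible next pair if `q` has to be handled and the pairs in `B` have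
been chosen. -/
def Vd (P Le D I q B w : ZFSet.{0}) : Prop :=
  w ∈ D ∧ fs w ∈ I ∧ w = pair (fs w) (sn w) ∧ sn w ∈ P ∧ pair (sn w) q ∈ Le ∧
    ∀ w' ∈ B, w' ∈ D → w' = pair (fs w) (sn w') → sn w' ∈ P → ¬ Cmp P Le (sn w) (sn w')

/-- The pairs that are chosen. -/
noncomputable def hf (M W P Le D I : ZFSet.{0}) : ZFSet.{0} → ZFSet.{0} :=
  wfF (fun z => z) ZFSet.mem_wf fun z g =>
    ch W (wt {x | x ∈ M} fun w => Vd P Le D I (fs (enu M W z)) (im sn g) w)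

theorem hf_eq' (M W P Le D I z : ZFSet.{0}) : hf M W P Le D I z =
    ch W (wt {x | x ∈ M} fun w => Vd P Le D I (fs (enu M W z))
      (im sn (gr (hf M W P Le D I) z)) w) := wfF_eq _ _ _ _

theorem hf_eq (M W P Le D I z : ZFSet.{0}) : hf M W P Le D I z =
    ch W (wt {x | x ∈ M} fun w => Vd P Le D I (fs (enu M W z))
      (im (hf M W P Le D I) z) w) := by
  rw [hf_eq', im_sn_gr]

section

variable {M C P Le W D I p₀ : ZFSet.{0}} (h : Cfs M C P Le) (hWC : W ∈ C) (hW : IsWO M W)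
  (hD : D ∈ C) (hI : I ∈ M)

include h

theorem dCmp : Dfn {X | X ∈ C} {x | x ∈ M} fun w : Fin 2 → ZFSet.{0} =>
    Cmp P Le (w 0) (w 1) := by
  have h1 : Dfn {X | X ∈ C} {x | x ∈ M} fun w : Fin 2 → ZFSet.{0} =>
      ∃ s ∈ {x | x ∈ M}, s ∈ P ∧ pair s (w 0) ∈ Le ∧ pair s (w 1) ∈ Le := by
    apply Dfn.ex
    exact (h.dP.comp ![0]).and ((h.dL.comp ![0, 1]).and (h.dL.comp ![0, 2]))
  refine h1.congr fun w _ => ?_
  exact ⟨fun ⟨s, _, h2⟩ => ⟨s, h2⟩, fun ⟨s, h2⟩ => ⟨s, h.subM h2.1, h2⟩⟩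

include hD hI

theorem dVd : Dfn {X | X ∈ C} {x | x ∈ M} fun w : Fin 3 → ZFSet.{0} =>
    Vd P Le D I (w 0) (w 1) (w 2) := by
  have hB := h.zf.base
  have hP := h.cf.mem
  have hL := h.cf.le_mem
  have hI' : I ∈ {x | x ∈ M} := hI
  unfold Vd
  refine Dfn.and (Dfn.cls hD (DfnF.proj 2)) (Dfn.and ?_ (Dfn.and ?_ (Dfn.and ?_ (Dfn.and ?_ ?_))))
  · exact Dfn.mem (h.zs.fs' (DfnF.proj 2)) (h.zs.const hI')
  · exact Dfn.eq (DfnF.proj 2) (hB.pair' (h.zs.fs' (DfnF.proj 2)) (h.zs.sn' (DfnF.proj 2)))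
  · exact Dfn.cls hP (h.zs.sn' (DfnF.proj 2))
  · exact Dfn.cls hL (hB.pair' (h.zs.sn' (DfnF.proj 2)) (DfnF.proj 0))
  · apply hB.ball (DfnF.proj 1)
    refine Dfn.imp (Dfn.cls hD (DfnF.proj 0)) (Dfn.imp ?_ (Dfn.imp ?_ (Dfn.not ?_)))
    · exact Dfn.eq (DfnF.proj 0) (hB.pair' (h.zs.fs' (DfnF.proj 3)) (h.zs.sn' (DfnF.proj 0)))
    · exact Dfn.cls hP (h.zs.sn' (DfnF.proj 0))
    · exact Dfn.comp2 (Q := fun a b => Cmp P Le a b) (dCmp h) (h.zs.sn' (DfnF.proj 3))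
        (h.zs.sn' (DfnF.proj 0))

include hWC hW

theorem dfn_hf : DfnF {X | X ∈ C} {x | x ∈ M} fun w : Fin 1 → ZFSet.{0} =>
    hf M W P Le D I (w 0) := by
  have hen := dfn_enu h.zs hWC hW
  refine h.zs.memrec (G := fun z g => ch W (wt {x | x ∈ M} fun w =>
    Vd P Le D I (fs (enu M W z)) (im sn g) w)) ?_ (hf_eq' M W P Le D I)
  refine ch' h.zs hWC hW (h.zs.wt' (Q := fun w v =>
    Vd P Le D I (fs (enu M W (v 0))) (im sn (v 1)) w) ?_)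
  refine Dfn.comp3 (Q := fun a b c => Vd P Le D I a b c) (dVd h hD hI) ?_ ?_ (DfnF.proj 0)
  · exact h.zs.fs' (DfnF.comp1 (f := enu M W) hen (DfnF.proj 1))
  · exact h.zs.im' (h := fun p _ => sn p) (DfnF.proj 2) (h.zs.sn' (DfnF.proj 0))

/-- If pretameness fails, the chosen pairs are possible. -/
theorem hf_spec (hp₀ : p₀ ∈ P)
    (hd : ∀ i ∈ I, ∀ q ∈ P, pair q p₀ ∈ Le → ∃ d ∈ P, pair d q ∈ Le ∧ pair i d ∈ D)
    (hn : ∀ q ∈ P, pair q p₀ ∈ Le → ∀ b ∈ M, ∃ i ∈ I, ∃ r ∈ P, pair r q ∈ Le ∧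
      ∀ d ∈ b, d ∈ P → pair i d ∈ D → ¬ Cmp P Le d r) {z : ZFSet.{0}} (hz : z ∈ M)
    (h1 : fs (enu M W z) ∈ P) (h2 : pair (fs (enu M W z)) p₀ ∈ Le) :
    Vd P Le D I (fs (enu M W z)) (im (hf M W P Le D I) z) (hf M W P Le D I z) := by
  have hhf := dfn_hf h hWC hW hD hI
  have hz' : z ∈ {x | x ∈ M} := hz
  have him : im (hf M W P Le D I) z ∈ {x | x ∈ M} := h.zs.im_mem hz hhf
  have hb : im sn (im (hf M W P Le D I) z) ∈ {x | x ∈ M} :=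
    h.zs.im_mem him (h.zs.sn' (DfnF.proj 0))
  obtain ⟨i, hi, r, hr, hrq, h3⟩ := hn _ h1 h2 _ hb
  obtain ⟨d, hdP, hdr, hdD⟩ := hd i hi r hr (h.cf.trans _ hp₀ _ h1 _ hr hrq h2)
  have hiM : i ∈ {x | x ∈ M} := h.zf.trans _ hI _ hi
  have hq : fs (enu M W z) ∈ {x | x ∈ M} := h.subM h1
  have h4 : ∃ w ∈ {x | x ∈ M}, Vd P Le D I (fs (enu M W z)) (im (hf M W P Le D I) z) w := by
    refine ⟨pair i d, h.zf.pair_mem hiM (h.subM hdP), ?_⟩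
    unfold Vd
    rw [fs_pair, sn_pair]
    refine ⟨hdD, hi, rfl, hdP, h.cf.trans _ h1 _ hr _ hdP hdr hrq, ?_⟩
    intro w' hw' hw'D h5 h6 h7
    obtain ⟨s, hs, h8, h9⟩ := h7
    rw [h5] at hw'D
    exact h3 (sn w') (mem_im.2 ⟨w', hw', rfl⟩) h6 hw'D
      ⟨s, hs, h9, h.cf.trans _ hr _ hdP _ hs h8 hdr⟩
  have h5 : ch W (wt {x | x ∈ M} fun w => Vd P Le D I (fs (enu M W z))
      (im (hf M W P Le D I) z) w) ∈ wt {x | x ∈ M} fun w => Vd P Le D I (fs (enu M W z))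
      (im (hf M W P Le D I) z) w := by
    refine ch_mem hW (wt_mem h.zs hWC hW ?_) (wt_ne h.zf h4)
    exact Dfn.comp3 (Q := fun a b c => Vd P Le D I a b c) (dVd h hD hI) (h.zs.const hq)
      (h.zs.const him) (DfnF.proj 0)
  rw [← hf_eq] at h5
  exact (wt_spec h5).2

end

/-! ### Definability of the names -/

section

variable {M C : ZFSet.{0}} (hZ : ZS {X | X ∈ C} {x | x ∈ M}) {p : ZFSet.{0}} (hp : p ∈ M)

include hZ hp

theorem dfn_ck : DfnF {X | X ∈ C} {x | x ∈ M} fun w : Fin 1 → ZFSet.{0} => ck p (w 0) := by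
  have hp' : p ∈ {x | x ∈ M} := hp
  refine hZ.memrec (G := fun _ g => im (fun u => pair (sn u) p) g) ?_ (ck_eq p)
  refine hZ.im' (h := fun u _ => pair (sn u) p) (DfnF.proj 1) ?_
  exact hZ.zf.base.pair' (hZ.sn' (DfnF.proj 0)) (hZ.const hp')

theorem opn' {n : ℕ} {F G : (Fin n → ZFSet.{0}) → ZFSet.{0}}
    (hF : DfnF {X | X ∈ C} {x | x ∈ M} F) (hG : DfnF {X | X ∈ C} {x | x ∈ M} G) :
    DfnF {X | X ∈ C} {x | x ∈ M} fun w => opn p (F w) (G w) := by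
  have hp' : p ∈ {x | x ∈ M} := hp
  have hB := hZ.zf.base
  have hu : ∀ {F G : (Fin n → ZFSet.{0}) → ZFSet.{0}}, DfnF {X | X ∈ C} {x | x ∈ M} F →
      DfnF {X | X ∈ C} {x | x ∈ M} G → DfnF {X | X ∈ C} {x | x ∈ M} fun w => upn p (F w) (G w) :=
    fun hF hG => hB.upair' (hB.pair' hF (hZ.const hp')) (hB.pair' hG (hZ.const hp'))
  exact hu (hu hF hF) (hu hF hG)

end

/-- The formula `z ∉ H(z)`, where `H` is the function that is given by a class of pairs. -/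
def diag (Γ : ZFSet.{0}) : Fml ZFSet.{0} 1 :=
  .neg (.ex (.ex (.ex (.ex (
    -- the variables are `w, b, a, u, z`
    .and (.mem (Sum.inl 3) (Sum.inr Γ)) (.and (.mem (Sum.inl 2) (Sum.inl 3))
    (.and (.mem (Sum.inl 4) (Sum.inl 2)) (.and
      (.neg (.ex (.and (.mem (Sum.inl 0) (Sum.inl 3)) (.neg (.eq (Sum.inl 0) (Sum.inl 5))))))
    (.and (.mem (Sum.inl 1) (Sum.inl 3)) (.and (.mem (Sum.inl 0) (Sum.inl 1))
      (.mem (Sum.inl 4) (Sum.inl 0))))))))))))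

theorem diag_over {S : Set ZFSet.{0}} {Γ : ZFSet.{0}} (h : Γ ∈ S) : (diag Γ).Over S := by
  have h1 : ∀ {n : ℕ} (i : Fin n), TOver S (Sum.inl i) := fun i => TOver.inl i
  exact ⟨⟨h1 _, tOver_inr.2 h⟩, ⟨h1 _, h1 _⟩, ⟨h1 _, h1 _⟩, ⟨⟨h1 _, h1 _⟩, h1 _, h1 _⟩,
    ⟨h1 _, h1 _⟩, ⟨h1 _, h1 _⟩, h1 _, h1 _⟩

theorem sat_diag {N : Set ZFSet.{0}} {i : ZFSet.{0} → ZFSet.{0}} {Γ z : ZFSet.{0}} :
    Sat N i (diag Γ) ![z] ↔ ¬ ∃ u ∈ N, ∃ a ∈ N, ∃ b ∈ N, ∃ w ∈ N, u ∈ i Γ ∧ a ∈ u ∧ z ∈ a ∧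
      (¬ ∃ e ∈ N, e ∈ a ∧ ¬ e = z) ∧ b ∈ u ∧ w ∈ b ∧ z ∈ w := Iff.rfl

/-- The diagonal formula in a transitive set. -/
theorem sat_diag' {N : Set ZFSet.{0}} (hN : ∀ x ∈ N, ∀ y ∈ x, y ∈ N) {i : ZFSet.{0} → ZFSet.{0}}
    {Γ z : ZFSet.{0}} (hΓ : ∀ u ∈ i Γ, u ∈ N ∧ ∃ j w, u = pair j w) :
    Sat N i (diag Γ) ![z] ↔ ¬ ∃ w, pair z w ∈ i Γ ∧ z ∈ w := by
  rw [sat_diag, not_iff_not]
  constructor
  · rintro ⟨u, hu, a, ha, b, hb, w, hw, h1, h2, h3, h4, h5, h6, h7⟩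
    push Not at h4
    obtain ⟨-, j, w', rfl⟩ := hΓ u h1
    have hjz : j = z := by
      have h8 : j ∈ a := by
        rw [pair, ZFSet.mem_pair] at h2
        rcases h2 with rfl | rfl
        · exact ZFSet.mem_singleton.2 rfl
        · exact ZFSet.mem_pair.2 (Or.inl rfl)
      exact h4 j (hN _ ha _ h8) h8
    subst hjz
    have hwj : w ≠ j := fun h8 => ZFSet.mem_irrefl j (h8 ▸ h7)
    have hww : w = w' := by
      rw [pair, ZFSet.mem_pair] at h5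
      rcases h5 with rfl | rfl
      · exact absurd (ZFSet.mem_singleton.1 h6) hwj
      · rcases ZFSet.mem_pair.1 h6 with h8 | h8
        · exact absurd h8 hwj
        · exact h8
    subst hww
    exact ⟨w, h1, h7⟩
  · rintro ⟨w, h1, h2⟩
    have hu := (hΓ _ h1).1
    have ha : ({z} : ZFSet.{0}) ∈ pair z w := ZFSet.mem_pair.2 (Or.inl rfl)
    have hb : ({z, w} : ZFSet.{0}) ∈ pair z w := ZFSet.mem_pair.2 (Or.inr rfl)
    refine ⟨_, hu, {z}, hN _ hu _ ha, {z, w}, hN _ hu _ hb, w,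
      hN _ (hN _ hu _ hb) _ (by simp), h1, ha, by simp, ?_, hb, by simp, h2⟩
    rintro ⟨e, -, h3, h4⟩
    exact h4 (ZFSet.mem_singleton.1 h3)

theorem Mext_trans {M P G : ZFSet.{0}} (hM : IsZF {x | x ∈ M}) :
    ∀ x ∈ Mext M P G, ∀ y ∈ x, y ∈ Mext M P G := by
  rintro x ⟨σ, hσ, hσn, rfl⟩ y hy
  obtain ⟨π, r, h1, -, rfl⟩ := mem_ev.1 hy
  obtain ⟨π', -, r', -, h2, h3⟩ := isName_iff.1 hσn _ h1
  obtain ⟨rfl, rfl⟩ := ZFSet.pair_inj.1 h2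
  exact ⟨π, (hM.of_pair_mem (hM.trans _ hσ _ h1)).1, h3, rfl⟩

/-- A class forcing that preserves Separation is pretame. -/
theorem pretame_of_separation {M C P Le : ZFSet.{0}} (h : Cfs M C P Le)
    (hS : PreservesSeparation M C P Le) : Pretame M C P Le := by
  intro p₀ hp₀ I hI D hD hd
  by_contra hcon
  obtain ⟨W, hWC, hW1, hW2, -, hW4⟩ := h.gbc.wellOrder
  have hW : IsWO M W := ⟨hW1, hW2, hW4⟩
  have hn : ∀ q ∈ P, pair q p₀ ∈ Le → ∀ b ∈ M, ∃ i ∈ I, ∃ r ∈ P, pair r q ∈ Le ∧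
      ∀ d ∈ b, d ∈ P → pair i d ∈ D → ¬ Cmp P Le d r := by
    intro q hq hqp b hb
    by_contra h1
    push Not at h1
    exact hcon ⟨q, hq, hqp, b, hb, h1⟩
  have hB := h.zf.base
  have hP := h.cf.mem
  have hL := h.cf.le_mem
  have hp₀M : p₀ ∈ {x | x ∈ M} := h.subM hp₀
  have hen := dfn_enu h.zs hWC hW
  have hhf := dfn_hf h hWC hW hD hI
  set e := enu M W with he
  set H := hf M W P Le D I with hH
  have hspec : ∀ z ∈ M, fs (e z) ∈ P → pair (fs (e z)) p₀ ∈ Le →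
      Vd P Le D I (fs (e z)) (im H z) (H z) := fun z hz h1 h2 =>
    hf_spec h hWC hW hD hI hp₀ hd hn hz h1 h2
  -- different triples with the same index have incompatible conditions
  have hinc : ∀ z ∈ M, ∀ z' ∈ M, z.IsOrdinal → z'.IsOrdinal → fs (e z) ∈ P →
      pair (fs (e z)) p₀ ∈ Le → fs (e z') ∈ P → pair (fs (e z')) p₀ ∈ Le →
      fs (H z) = fs (H z') → Cmp P Le (sn (H z)) (sn (H z')) → z = z' := by
    intro z hz z' hz' ho ho' h1 h2 h3 h4 h5 h6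
    have hs := hspec z hz h1 h2
    have hs' := hspec z' hz' h3 h4
    rcases ho.mem_trichotomous ho' with h7 | h7 | h7
    · refine absurd ?_ (hs'.2.2.2.2.2 (H z) (mem_im.2 ⟨z, h7, rfl⟩) hs.1 ?_ hs.2.2.2.1)
      · obtain ⟨s, hs1, hs2, hs3⟩ := h6
        exact ⟨s, hs1, hs3, hs2⟩
      · rw [← h5]
        exact hs.2.2.1
    · exact h7
    · refine absurd h6 (hs.2.2.2.2.2 (H z') (mem_im.2 ⟨z', h7, rfl⟩) hs'.1 ?_ hs'.2.2.2.1)
      rw [h5]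
      exact hs'.2.2.1
  -- the class name
  have hQd : Dfn {X | X ∈ C} {x | x ∈ M} fun w : Fin 1 → ZFSet.{0} => ∃ z ∈ {x | x ∈ M},
      z.IsOrdinal ∧ fs (e z) ∈ P ∧ pair (fs (e z)) p₀ ∈ Le ∧ IsName P (sn (e z)) ∧
        w 0 = pair (opn p₀ (ck p₀ (fs (H z))) (sn (e z))) (sn (H z)) := by
    have hez : DfnF {X | X ∈ C} {x | x ∈ M} fun w : Fin 2 → ZFSet.{0} => e (w 0) :=
      DfnF.comp1 (f := e) hen (DfnF.proj 0)
    have hHz : DfnF {X | X ∈ C} {x | x ∈ M} fun w : Fin 2 → ZFSet.{0} => H (w 0) :=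
      DfnF.comp1 (f := H) hhf (DfnF.proj 0)
    apply Dfn.ex
    refine Dfn.and (hB.isOrdinal' (DfnF.proj 0)) (Dfn.and ?_ (Dfn.and ?_ (Dfn.and ?_ ?_)))
    · exact Dfn.cls hP (h.zs.fs' hez)
    · exact Dfn.cls hL (hB.pair' (h.zs.fs' hez) (h.zs.const hp₀M))
    · exact Dfn.comp1 (Q := fun x => IsName P x) h.dN (h.zs.sn' hez)
    · refine Dfn.eq (DfnF.proj 1) (hB.pair' (opn' h.zs hp₀M ?_ (h.zs.sn' hez)) (h.zs.sn' hHz))
      exact DfnF.comp1 (f := ck p₀) (dfn_ck h.zs hp₀M) (h.zs.fs' hHz)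
  set Γ := ZFSet.sep (fun u => ∃ z ∈ {x | x ∈ M},
      z.IsOrdinal ∧ fs (e z) ∈ P ∧ pair (fs (e z)) p₀ ∈ Le ∧ IsName P (sn (e z)) ∧
        u = pair (opn p₀ (ck p₀ (fs (H z))) (sn (e z))) (sn (H z))) M with hΓ
  have hΓC : Γ ∈ C := cls_of h.gbc.toIsGB hQd
  have hΓn : IsName P Γ := by
    refine IsName.mk _ (fun u hu => ?_) fun y r hu => ?_
    · obtain ⟨-, z, hz, -, h1, h2, -, rfl⟩ := ZFSet.mem_sep.1 hu
      exact ⟨_, _, (hspec z hz h1 h2).2.2.2.1, rfl⟩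
    · obtain ⟨-, z, hz, -, h1, h2, h3, h4⟩ := ZFSet.mem_sep.1 hu
      rw [(ZFSet.pair_inj.1 h4).1]
      exact isName_opn hp₀ (isName_ck hp₀ _) h3
  -- the generic filter
  obtain ⟨G, hG, hp₀G⟩ := h.gen hp₀
  have hIn : I ∈ Mext M P G := ⟨ck p₀ I, (dfn_ck h.zs hp₀M).1 (fun _ => I) fun _ => hI,
    isName_ck hp₀ I, (ev_ck hp₀G I).symm⟩
  have hNt := Mext_trans (P := P) (G := G) h.zf
  -- the elements of the value of the class name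
  have hmem : ∀ u, u ∈ ev G Γ ↔ ∃ z ∈ M, z.IsOrdinal ∧ fs (e z) ∈ P ∧
      pair (fs (e z)) p₀ ∈ Le ∧ IsName P (sn (e z)) ∧ sn (H z) ∈ G ∧
        u = pair (fs (H z)) (ev G (sn (e z))) := by
    intro u
    rw [mem_ev]
    constructor
    · rintro ⟨y, r, h1, h2, rfl⟩
      obtain ⟨-, z, hz, ho, h3, h4, h5, h6⟩ := ZFSet.mem_sep.1 h1
      obtain ⟨rfl, rfl⟩ := ZFSet.pair_inj.1 h6
      refine ⟨z, hz, ho, h3, h4, h5, h2, ?_⟩
      rw [ev_opn hp₀G, ev_ck hp₀G]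
    · rintro ⟨z, hz, ho, h3, h4, h5, h6, rfl⟩
      have hz' : z ∈ {x | x ∈ M} := hz
      have hez : e z ∈ {x | x ∈ M} := hen.1 (fun _ => z) fun _ => hz
      have hHz : H z ∈ {x | x ∈ M} := hhf.1 (fun _ => z) fun _ => hz
      have h7 : ck p₀ (fs (H z)) ∈ {x | x ∈ M} :=
        (dfn_ck h.zs hp₀M).1 (fun _ => fs (H z)) fun _ => h.zf.fs_mem hHz
      have h8 : opn p₀ (ck p₀ (fs (H z))) (sn (e z)) ∈ {x | x ∈ M} :=
        (opn' (n := 0) h.zs hp₀M (h.zs.const h7) (h.zs.const (h.zf.sn_mem hez))).1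
          Fin.elim0 fun i => i.elim0
      refine ⟨opn p₀ (ck p₀ (fs (H z))) (sn (e z)), sn (H z), ZFSet.mem_sep.2
        ⟨h.zf.pair_mem h8 (h.zf.sn_mem hHz), z, hz, ho, h3, h4, h5, rfl⟩, h6, ?_⟩
      rw [ev_opn hp₀G, ev_ck hp₀G]
  have hΓN : ∀ u ∈ ev G Γ, u ∈ Mext M P G ∧ ∃ j w, u = pair j w := by
    intro u hu
    refine ⟨?_, ?_⟩
    · obtain ⟨y, r, h1, -, rfl⟩ := mem_ev.1 hu
      obtain ⟨y', -, r', -, h2, h3⟩ := isName_iff.1 hΓn _ h1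
      obtain ⟨rfl, rfl⟩ := ZFSet.pair_inj.1 h2
      exact ⟨y, (h.zf.of_pair_mem (ZFSet.mem_sep.1 h1).1).1, h3, rfl⟩
    · obtain ⟨z, -, -, -, -, -, -, rfl⟩ := (hmem u).1 hu
      exact ⟨_, _, rfl⟩
  -- the diagonal set
  obtain ⟨X, ⟨σ, hσ, hσn, rfl⟩, hX⟩ := hS G hG (diag Γ) (diag_over ⟨hΓC, hΓn⟩) I hIn
  have hX' : ∀ i, i ∈ ev G σ ↔ i ∈ I ∧ ¬ ∃ w, pair i w ∈ ev G Γ ∧ i ∈ w := by
    intro i
    rw [hX, sat_diag' hNt hΓN]
  -- a triple for the name of the diagonal set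
  have hσ' : σ ∈ {x | x ∈ M} := hσ
  have hQ2 : Dfn {X | X ∈ C} {x | x ∈ M} fun w : Fin 1 → ZFSet.{0} => ∃ z ∈ {x | x ∈ M},
      z.IsOrdinal ∧ fs (e z) ∈ P ∧ pair (fs (e z)) p₀ ∈ Le ∧ sn (e z) = σ ∧
        w 0 = sn (H z) := by
    have hez : DfnF {X | X ∈ C} {x | x ∈ M} fun w : Fin 2 → ZFSet.{0} => e (w 0) :=
      DfnF.comp1 (f := e) hen (DfnF.proj 0)
    have hHz : DfnF {X | X ∈ C} {x | x ∈ M} fun w : Fin 2 → ZFSet.{0} => H (w 0) :=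
      DfnF.comp1 (f := H) hhf (DfnF.proj 0)
    apply Dfn.ex
    refine Dfn.and (hB.isOrdinal' (DfnF.proj 0)) (Dfn.and ?_ (Dfn.and ?_ (Dfn.and ?_ ?_)))
    · exact Dfn.cls hP (h.zs.fs' hez)
    · exact Dfn.cls hL (hB.pair' (h.zs.fs' hez) (h.zs.const hp₀M))
    · exact Dfn.eq (h.zs.sn' hez) (h.zs.const hσ')
    · exact Dfn.eq (DfnF.proj 1) (h.zs.sn' hHz)
  obtain ⟨d, hdG, z, hz, ho, h1, h2, h3, rfl⟩ := h.meet hG (Q := fun d =>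
      ∃ z ∈ {x | x ∈ M}, z.IsOrdinal ∧ fs (e z) ∈ P ∧ pair (fs (e z)) p₀ ∈ Le ∧ sn (e z) = σ ∧
        d = sn (H z)) hQ2 hp₀G (by
    intro q hq hqp
    obtain ⟨z, hz, ho, h1⟩ := enu_surj h.zs hWC hW
      (y := pair q σ) (h.zf.pair_mem (h.subM hq) hσ')
    have h2 : fs (e z) = q := by rw [he, h1, fs_pair]
    have h3 : sn (e z) = σ := by rw [he, h1, sn_pair]
    have h4 := hspec z hz (h2 ▸ hq) (h2 ▸ hqp)
    refine ⟨sn (H z), h4.2.2.2.1, ?_, z, hz, ho, h2 ▸ hq, h2 ▸ hqp, h3, rfl⟩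
    have h5 := h4.2.2.2.2.1
    rwa [h2] at h5)
  have h4 := hspec z hz h1 h2
  have h5 : pair (fs (H z)) (ev G σ) ∈ ev G Γ :=
    (hmem _).2 ⟨z, hz, ho, h1, h2, h3 ▸ hσn, hdG, by rw [h3]⟩
  by_cases hi : fs (H z) ∈ ev G σ
  · exact ((hX' _).1 hi).2 ⟨_, h5, hi⟩
  · apply hi
    have h6 : ∃ w, pair (fs (H z)) w ∈ ev G Γ ∧ fs (H z) ∈ w := by
      by_contra h7
      exact hi ((hX' _).2 ⟨h4.2.1, h7⟩)
    obtain ⟨w, h7, h8⟩ := h6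
    obtain ⟨z', hz', ho', h9, h10, -, h11, h12⟩ := (hmem _).1 h7
    obtain ⟨h13, h14⟩ := ZFSet.pair_inj.1 h12
    obtain ⟨s, hs, hs1, hs2⟩ := hG.dir _ hdG _ h11
    have h15 := hinc z hz z' hz' ho ho' h1 h2 h9 h10 h13 ⟨s, hG.sub hs, hs1, hs2⟩
    rw [← h15, h3] at h14
    rwa [h14] at h8

/-- Separation preservation implies the forcing theorem. -/
theorem main_theorem {M C P Le : ZFSet.{0}} (hM : IsGBC M C) (hc : {X | X ∈ C}.Countable)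
    (hP : IsClassForcing C P Le) (hS : PreservesSeparation M C P Le) :
    Pretame M C P Le ∧ ForcingThm M C P Le := by
  have h : Cfs M C P Le := ⟨hM, hc, hP⟩
  have h1 := pretame_of_separation h hS
  exact ⟨h1, forcingThm_of_pretame h h1⟩

end Pool.Agent.W2helper52.CF
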