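import Pool.Agent.W2helper52.CF.Fm

/-!
# Pretame class forcings satisfy the forcing theorem

The proof uses certificates: sets of judgments that a condition forces that the values of two names
are equal or different, such that each judgment in the set is justified by the others.
-/

set_option autoImplicit false
set_option linter.unreachableTactic false
set_option linter.unusedTactic false
set_option linter.unusedSectionVars false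
set_option linter.unusedVariables false

namespace Pool.Agent.W2helper52.CF

open Pool.Agent.W868 Pool.Agent.W868.GM Pool.Agent.Y588 Pool.Agent.R597
open ZFSet (pair)

/-- Two conditions are compatible. -/
def Cmp (P Le d e : ZFSet.{0}) : Prop := ∃ s ∈ P, pair s d ∈ Le ∧ pair s e ∈ Le

/-- The class forcing is pretame: if `p` is a condition and `D` is a class such that for all `i` in
the set `I` the class `{d | (i, d) ∈ D}` is dense below `p`, then there are a condition `q ≤ p` and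
a set `b` such that for all `i ∈ I` the set `{d ∈ b | (i, d) ∈ D}` is predense below `q`. -/
def Pretame (M C P Le : ZFSet.{0}) : Prop :=
  ∀ p ∈ P, ∀ I ∈ M, ∀ D ∈ C,
    (∀ i ∈ I, ∀ q ∈ P, pair q p ∈ Le → ∃ d ∈ P, pair d q ∈ Le ∧ pair i d ∈ D) →
    ∃ q ∈ P, pair q p ∈ Le ∧ ∃ b ∈ M, ∀ i ∈ I, ∀ r ∈ P, pair r q ∈ Le →
      ∃ d ∈ b, d ∈ P ∧ pair i d ∈ D ∧ Cmp P Le d r

/-! ### Certificates -/

/-- The code of a judgment. -/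
noncomputable def jd (e p σ τ : ZFSet.{0}) : ZFSet.{0} := pair e (pair p (pair σ τ))

theorem jd_inj {e p σ τ e' p' σ' τ' : ZFSet.{0}} (h : jd e p σ τ = jd e' p' σ' τ') :
    p = p' ∧ σ = σ' ∧ τ = τ' := by
  obtain ⟨-, h1⟩ := ZFSet.pair_inj.1 h
  obtain ⟨h2, h3⟩ := ZFSet.pair_inj.1 h1
  exact ⟨h2, ZFSet.pair_inj.1 h3⟩

/-- There is a judgment in `c` for a condition above `q`. -/
def Hc (K : Set ZFSet.{0}) (P Le c e q σ τ : ZFSet.{0}) : Prop :=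
  ∃ p ∈ K, p ∈ P ∧ pair q p ∈ Le ∧ jd e p σ τ ∈ c

/-- The judgment that `p` forces `σ = τ` is justified by `c`. -/
def Jp (K : Set ZFSet.{0}) (P Le c p σ τ : ZFSet.{0}) : Prop :=
  (∀ π ∈ K, ∀ r ∈ K, pair π r ∈ σ → ∀ q ∈ K, q ∈ P → pair q p ∈ Le → pair q r ∈ Le →
    ∃ t ∈ K, t ∈ P ∧ pair t q ∈ Le ∧ ∃ ρ ∈ K, ∃ s ∈ K, pair ρ s ∈ τ ∧ pair t s ∈ Le ∧
      Hc K P Le c (nat 0) t π ρ) ∧
  ∀ ρ ∈ K, ∀ s ∈ K, pair ρ s ∈ τ → ∀ q ∈ K, q ∈ P → pair q p ∈ Le → pair q s ∈ Le →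
    ∃ t ∈ K, t ∈ P ∧ pair t q ∈ Le ∧ ∃ π ∈ K, ∃ r ∈ K, pair π r ∈ σ ∧ pair t r ∈ Le ∧
      Hc K P Le c (nat 0) t π ρ

/-- The judgment that `p` forces `σ ≠ τ` is justified by `c`. -/
def Jn (K : Set ZFSet.{0}) (P Le c p σ τ : ZFSet.{0}) : Prop :=
  (∃ π ∈ K, ∃ r ∈ K, pair π r ∈ σ ∧ pair p r ∈ Le ∧ ∀ ρ ∈ K, ∀ s ∈ K, pair ρ s ∈ τ →
    ∀ q ∈ K, q ∈ P → pair q p ∈ Le → pair q s ∈ Le →
      ∃ t ∈ K, t ∈ P ∧ pair t q ∈ Le ∧ Hc K P Le c (nat 1) t π ρ) ∨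
  ∃ ρ ∈ K, ∃ s ∈ K, pair ρ s ∈ τ ∧ pair p s ∈ Le ∧ ∀ π ∈ K, ∀ r ∈ K, pair π r ∈ σ →
    ∀ q ∈ K, q ∈ P → pair q p ∈ Le → pair q r ∈ Le →
      ∃ t ∈ K, t ∈ P ∧ pair t q ∈ Le ∧ Hc K P Le c (nat 1) t π ρ

/-- The set `c` is a certificate. -/
def Gc (K : Set ZFSet.{0}) (P Le c : ZFSet.{0}) : Prop :=
  ∀ j ∈ c, ∃ p ∈ K, p ∈ P ∧ ∃ σ ∈ K, ∃ τ ∈ K,
    (j = jd (nat 0) p σ τ ∧ Jp K P Le c p σ τ) ∨ (j = jd (nat 1) p σ τ ∧ Jn K P Le c p σ τ)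

/-- There is a certificate for `q`. -/
def Dc (K : Set ZFSet.{0}) (P Le e q σ τ : ZFSet.{0}) : Prop :=
  ∃ c ∈ K, Gc K P Le c ∧ Hc K P Le c e q σ τ

section mono

variable {K : Set ZFSet.{0}} {P Le c c' p σ τ e q t : ZFSet.{0}}

theorem Hc.mono (h : c ⊆ c') (h1 : Hc K P Le c e q σ τ) : Hc K P Le c' e q σ τ := by
  obtain ⟨p, h2, h3, h4, h5⟩ := h1
  exact ⟨p, h2, h3, h4, h h5⟩

theorem Jp.mono (h : c ⊆ c') (h1 : Jp K P Le c p σ τ) : Jp K P Le c' p σ τ := by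
  refine ⟨fun π hπ r hr h2 q hq hqP h3 h4 => ?_, fun π hπ r hr h2 q hq hqP h3 h4 => ?_⟩
  · obtain ⟨t, ht, htP, h5, ρ, hρ, s, hs, h6, h7, h8⟩ := h1.1 π hπ r hr h2 q hq hqP h3 h4
    exact ⟨t, ht, htP, h5, ρ, hρ, s, hs, h6, h7, h8.mono h⟩
  · obtain ⟨t, ht, htP, h5, ρ, hρ, s, hs, h6, h7, h8⟩ := h1.2 π hπ r hr h2 q hq hqP h3 h4
    exact ⟨t, ht, htP, h5, ρ, hρ, s, hs, h6, h7, h8.mono h⟩

theorem Jn.mono (h : c ⊆ c') (h1 : Jn K P Le c p σ τ) : Jn K P Le c' p σ τ := by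
  rcases h1 with ⟨π, hπ, r, hr, h2, h3, h4⟩ | ⟨π, hπ, r, hr, h2, h3, h4⟩
  · refine Or.inl ⟨π, hπ, r, hr, h2, h3, fun ρ hρ s hs h5 q hq hqP h6 h7 => ?_⟩
    obtain ⟨t, ht, htP, h8, h9⟩ := h4 ρ hρ s hs h5 q hq hqP h6 h7
    exact ⟨t, ht, htP, h8, h9.mono h⟩
  · refine Or.inr ⟨π, hπ, r, hr, h2, h3, fun ρ hρ s hs h5 q hq hqP h6 h7 => ?_⟩
    obtain ⟨t, ht, htP, h8, h9⟩ := h4 ρ hρ s hs h5 q hq hqP h6 h7
    exact ⟨t, ht, htP, h8, h9.mono h⟩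

theorem gc_sUnion {X : ZFSet.{0}} (h : ∀ c ∈ X, Gc K P Le c) :
    Gc K P Le (ZFSet.sUnion X) := by
  intro j hj
  obtain ⟨c, hc, hjc⟩ := ZFSet.mem_sUnion.1 hj
  have hsub : c ⊆ ZFSet.sUnion X := fun x hx => ZFSet.mem_sUnion.2 ⟨c, hc, hx⟩
  obtain ⟨p, hp, hpP, σ, hσ, τ, hτ, h1⟩ := h c hc j hjc
  refine ⟨p, hp, hpP, σ, hσ, τ, hτ, ?_⟩
  rcases h1 with ⟨h1, h2⟩ | ⟨h1, h2⟩
  · exact Or.inl ⟨h1, h2.mono hsub⟩
  · exact Or.inr ⟨h1, h2.mono hsub⟩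

theorem gc_insert (h : Gc K P Le c) {j : ZFSet.{0}} (hp : p ∈ K) (hpP : p ∈ P) (hσ : σ ∈ K)
    (hτ : τ ∈ K) (hj : (j = jd (nat 0) p σ τ ∧ Jp K P Le c p σ τ) ∨
      (j = jd (nat 1) p σ τ ∧ Jn K P Le c p σ τ)) : Gc K P Le (insert j c) := by
  have hsub : c ⊆ insert j c := fun x hx => ZFSet.mem_insert_of_mem _ hx
  intro j' hj'
  rcases ZFSet.mem_insert_iff.1 hj' with rfl | hj'
  · refine ⟨p, hp, hpP, σ, hσ, τ, hτ, ?_⟩
    rcases hj with ⟨h1, h2⟩ | ⟨h1, h2⟩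
    · exact Or.inl ⟨h1, h2.mono hsub⟩
    · exact Or.inr ⟨h1, h2.mono hsub⟩
  · obtain ⟨p, hp, hpP, σ, hσ, τ, hτ, h1⟩ := h j' hj'
    refine ⟨p, hp, hpP, σ, hσ, τ, hτ, ?_⟩
    rcases h1 with ⟨h1, h2⟩ | ⟨h1, h2⟩
    · exact Or.inl ⟨h1, h2.mono hsub⟩
    · exact Or.inr ⟨h1, h2.mono hsub⟩

end mono

section

variable {M C P Le : ZFSet.{0}} (h : Cfs M C P Le)

include h

/-! ### Definability -/

theorem dHc : Dfn {X | X ∈ C} {x | x ∈ M} fun w : Fin 5 → ZFSet.{0} =>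
    Hc {x | x ∈ M} P Le (w 0) (w 1) (w 2) (w 3) (w 4) := by
  have hB := h.zf.base
  have hP := h.cf.mem
  have hL := h.cf.le_mem
  unfold Hc jd
  (repeat' first
      | exact DfnF.proj _
      | apply Dfn.and
      | apply Dfn.ex
      | apply Dfn.cls hP | apply Dfn.cls hL | apply Dfn.mem | apply hB.pair')

theorem Hc' {n : ℕ} {F0 F1 F2 F3 F4 : (Fin n → ZFSet.{0}) → ZFSet.{0}}
    (h0 : DfnF {X | X ∈ C} {x | x ∈ M} F0) (h1 : DfnF {X | X ∈ C} {x | x ∈ M} F1)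
    (h2 : DfnF {X | X ∈ C} {x | x ∈ M} F2) (h3 : DfnF {X | X ∈ C} {x | x ∈ M} F3)
    (h4 : DfnF {X | X ∈ C} {x | x ∈ M} F4) : Dfn {X | X ∈ C} {x | x ∈ M} fun v =>
    Hc {x | x ∈ M} P Le (F0 v) (F1 v) (F2 v) (F3 v) (F4 v) :=
  substN h.zs.sub (dHc h) ![F0, F1, F2, F3, F4] (by
    intro i
    fin_cases i
    exacts [h0, h1, h2, h3, h4])

theorem dJp : Dfn {X | X ∈ C} {x | x ∈ M} fun w : Fin 4 → ZFSet.{0} =>
    Jp {x | x ∈ M} P Le (w 0) (w 1) (w 2) (w 3) := by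
  have hB := h.zf.base
  have hP := h.cf.mem
  have hL := h.cf.le_mem
  have h0 : nat 0 ∈ {x | x ∈ M} := h.zf.nat_mem 0
  unfold Jp
  (repeat' first
      | exact DfnF.proj _
      | exact h.zs.const h0
      | apply Dfn.and
      | apply Dfn.ex | apply Dfn.all
      | apply Dfn.imp
      | apply Hc' h
      | apply Dfn.cls hP | apply Dfn.cls hL | apply Dfn.mem | apply hB.pair')

theorem dJn : Dfn {X | X ∈ C} {x | x ∈ M} fun w : Fin 4 → ZFSet.{0} =>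
    Jn {x | x ∈ M} P Le (w 0) (w 1) (w 2) (w 3) := by
  have hB := h.zf.base
  have hP := h.cf.mem
  have hL := h.cf.le_mem
  have h1 : nat 1 ∈ {x | x ∈ M} := h.zf.nat_mem 1
  unfold Jn
  (repeat' first
      | exact DfnF.proj _
      | exact h.zs.const h1
      | apply Dfn.and | apply Dfn.or
      | apply Dfn.ex | apply Dfn.all
      | apply Dfn.imp
      | apply Hc' h
      | apply Dfn.cls hP | apply Dfn.cls hL | apply Dfn.mem | apply hB.pair')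

theorem dGc : Dfn {X | X ∈ C} {x | x ∈ M} fun w : Fin 1 → ZFSet.{0} =>
    Gc {x | x ∈ M} P Le (w 0) := by
  have hB := h.zf.base
  have hP := h.cf.mem
  have h0 : nat 0 ∈ {x | x ∈ M} := h.zf.nat_mem 0
  have h1 : nat 1 ∈ {x | x ∈ M} := h.zf.nat_mem 1
  unfold Gc jd
  apply hB.ball (DfnF.proj 0)
  apply Dfn.ex
  refine Dfn.and (Dfn.cls hP (DfnF.proj 0)) ?_
  apply Dfn.ex
  apply Dfn.ex
  refine Dfn.or (Dfn.and ?_ ((dJp h).comp ![4, 2, 1, 0])) (Dfn.and ?_ ((dJn h).comp ![4, 2, 1, 0]))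
  · exact Dfn.eq (DfnF.proj 3) (hB.pair' (h.zs.const h0) (hB.pair' (DfnF.proj 2)
      (hB.pair' (DfnF.proj 1) (DfnF.proj 0))))
  · exact Dfn.eq (DfnF.proj 3) (hB.pair' (h.zs.const h1) (hB.pair' (DfnF.proj 2)
      (hB.pair' (DfnF.proj 1) (DfnF.proj 0))))

theorem dDc : Dfn {X | X ∈ C} {x | x ∈ M} fun w : Fin 4 → ZFSet.{0} =>
    Dc {x | x ∈ M} P Le (w 0) (w 1) (w 2) (w 3) := by
  unfold Dc
  apply Dfn.ex
  exact ((dGc h).comp ![0]).and ((dHc h).comp ![0, 1, 2, 3, 4])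

theorem Dc' {n : ℕ} {F1 F2 F3 F4 : (Fin n → ZFSet.{0}) → ZFSet.{0}}
    (h1 : DfnF {X | X ∈ C} {x | x ∈ M} F1)
    (h2 : DfnF {X | X ∈ C} {x | x ∈ M} F2) (h3 : DfnF {X | X ∈ C} {x | x ∈ M} F3)
    (h4 : DfnF {X | X ∈ C} {x | x ∈ M} F4) : Dfn {X | X ∈ C} {x | x ∈ M} fun v =>
    Dc {x | x ∈ M} P Le (F1 v) (F2 v) (F3 v) (F4 v) :=
  Dfn.comp4 (Q := fun a b c d => Dc {x | x ∈ M} P Le a b c d) (dDc h) h1 h2 h3 h4

/-! ### Soundness -/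

theorem Cfs.leP {p q : ZFSet.{0}} (hqp : pair q p ∈ Le) : q ∈ P ∧ p ∈ P :=
  ZFSet.pair_mem_prod.1 (h.cf.le_sub hqp)

theorem Hc.le {c e q t σ τ : ZFSet.{0}} (h1 : Hc {x | x ∈ M} P Le c e q σ τ)
    (h2 : pair t q ∈ Le) : Hc {x | x ∈ M} P Le c e t σ τ := by
  obtain ⟨p, h3, h4, h5, h6⟩ := h1
  obtain ⟨ht, hq⟩ := h.leP h2
  exact ⟨p, h3, h4, h.cf.trans _ h4 _ hq _ ht h2 h5, h6⟩

theorem Dc.le {e q t σ τ : ZFSet.{0}} (h1 : Dc {x | x ∈ M} P Le e q σ τ)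
    (h2 : pair t q ∈ Le) : Dc {x | x ∈ M} P Le e t σ τ := by
  obtain ⟨c, h3, h4, h5⟩ := h1
  exact ⟨c, h3, h4, Hc.le h h5 h2⟩

theorem sound {G c : ZFSet.{0}} (hG : IsGen C P Le G) (hcM : c ∈ M)
    (hc : Gc {x | x ∈ M} P Le c) (σ : ZFSet.{0}) : ∀ τ p : ZFSet.{0}, p ∈ G →
      (jd (nat 0) p σ τ ∈ c → ev G σ = ev G τ) ∧
      (jd (nat 1) p σ τ ∈ c → ev G σ ≠ ev G τ) := by
  have hM := h.zf
  have hB := hM.base
  have h0 : nat 0 ∈ {x | x ∈ M} := hM.nat_mem 0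
  have h1' : nat 1 ∈ {x | x ∈ M} := hM.nat_mem 1
  have hne01 : nat 0 ≠ nat 1 := fun h => absurd (nat_injective h) (by norm_num)
  have hcK : c ∈ {x | x ∈ M} := hcM
  induction σ using dm_ind with
  | _ σ ih =>
  intro τ p hp
  have hpP := hG.sub hp
  -- the judgments are used for conditions in the filter
  have ihp : ∀ π r, pair π r ∈ σ → ∀ ρ t, t ∈ G → Hc {x | x ∈ M} P Le c (nat 0) t π ρ →
      ev G π = ev G ρ := by
    rintro π r h2 ρ t ht ⟨p', -, h3, h4, h5⟩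
    exact (ih π (mem_dm h2) ρ p' (hG.up t ht p' h3 h4)).1 h5
  have ihn : ∀ π r, pair π r ∈ σ → ∀ ρ t, t ∈ G → Hc {x | x ∈ M} P Le c (nat 1) t π ρ →
      ev G π ≠ ev G ρ := by
    rintro π r h2 ρ t ht ⟨p', -, h3, h4, h5⟩
    exact (ih π (mem_dm h2) ρ p' (hG.up t ht p' h3 h4)).2 h5
  constructor
  · intro hj
    obtain ⟨p', -, -, σ', hσ, τ', hτ, h1⟩ := hc _ hj
    rcases h1 with ⟨h1, h2⟩ | ⟨h1, -⟩
    swap
    · exact absurd (ZFSet.pair_inj.1 h1).1 hne01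
    obtain ⟨e1, e2, e3⟩ := jd_inj h1
    subst e1
    subst e2
    subst e3
    ext z
    constructor
    · intro hz
      obtain ⟨π, r, h4, h5, rfl⟩ := mem_ev.1 hz
      obtain ⟨q, hq, h6, h7⟩ := hG.dir _ hp _ h5
      have h8 := hM.of_pair_mem (hM.trans _ hσ _ h4)
      have hQ : Dfn {X | X ∈ C} {x | x ∈ M} fun w : Fin 1 → ZFSet.{0} =>
          ∃ ρ ∈ {x | x ∈ M}, ∃ s ∈ {x | x ∈ M}, pair ρ s ∈ τ ∧ pair (w 0) s ∈ Le ∧
            Hc {x | x ∈ M} P Le c (nat 0) (w 0) π ρ := by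
        apply Dfn.ex
        apply Dfn.ex
        refine Dfn.and ?_ (Dfn.and ?_ ?_)
        · exact Dfn.mem (hB.pair' (DfnF.proj 1) (DfnF.proj 0)) (h.zs.const hτ)
        · exact h.dL.comp ![2, 0]
        · exact Hc' h (h.zs.const hcK) (h.zs.const h0) (DfnF.proj 2) (h.zs.const h8.1)
            (DfnF.proj 1)
      obtain ⟨t, ht, ρ, hρ, s, hs, h9, h10, h11⟩ := h.meet hG (Q := fun t =>
          ∃ ρ ∈ {x | x ∈ M}, ∃ s ∈ {x | x ∈ M}, pair ρ s ∈ τ ∧ pair t s ∈ Le ∧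
            Hc {x | x ∈ M} P Le c (nat 0) t π ρ) hQ hq (by
        intro q' hq' h9
        have hqP := hG.sub hq
        obtain ⟨t, -, htP, h10, ρ, hρ, s, hs, h11⟩ := h2.1 π h8.1 r h8.2 h4 q' (h.subM hq') hq'
          (h.cf.trans _ hpP _ hqP _ hq' h9 h6) (h.cf.trans _ (hG.sub h5) _ hqP _ hq' h9 h7)
        exact ⟨t, htP, h10, ρ, hρ, s, hs, h11⟩)
      rw [ihp π r h4 ρ t ht h11]
      exact mem_ev.2 ⟨ρ, s, h9, hG.up t ht s (h.leP h10).2 h10, rfl⟩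
    · intro hz
      obtain ⟨ρ, s, h4, h5, rfl⟩ := mem_ev.1 hz
      obtain ⟨q, hq, h6, h7⟩ := hG.dir _ hp _ h5
      have h8 := hM.of_pair_mem (hM.trans _ hτ _ h4)
      have hQ : Dfn {X | X ∈ C} {x | x ∈ M} fun w : Fin 1 → ZFSet.{0} =>
          ∃ π ∈ {x | x ∈ M}, ∃ r ∈ {x | x ∈ M}, pair π r ∈ σ ∧ pair (w 0) r ∈ Le ∧
            Hc {x | x ∈ M} P Le c (nat 0) (w 0) π ρ := by
        apply Dfn.ex
        apply Dfn.ex
        refine Dfn.and ?_ (Dfn.and ?_ ?_)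
        · exact Dfn.mem (hB.pair' (DfnF.proj 1) (DfnF.proj 0)) (h.zs.const hσ)
        · exact h.dL.comp ![2, 0]
        · exact Hc' h (h.zs.const hcK) (h.zs.const h0) (DfnF.proj 2) (DfnF.proj 1)
            (h.zs.const h8.1)
      obtain ⟨t, ht, π, hπ, r, hr, h9, h10, h11⟩ := h.meet hG (Q := fun t =>
          ∃ π ∈ {x | x ∈ M}, ∃ r ∈ {x | x ∈ M}, pair π r ∈ σ ∧ pair t r ∈ Le ∧
            Hc {x | x ∈ M} P Le c (nat 0) t π ρ) hQ hq (by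
        intro q' hq' h9
        have hqP := hG.sub hq
        obtain ⟨t, -, htP, h10, ρ, hρ, s, hs, h11⟩ := h2.2 ρ h8.1 s h8.2 h4 q' (h.subM hq') hq'
          (h.cf.trans _ hpP _ hqP _ hq' h9 h6) (h.cf.trans _ (hG.sub h5) _ hqP _ hq' h9 h7)
        exact ⟨t, htP, h10, ρ, hρ, s, hs, h11⟩)
      rw [← ihp π r h9 ρ t ht h11]
      exact mem_ev.2 ⟨π, r, h9, hG.up t ht r (h.leP h10).2 h10, rfl⟩
  · intro hj
    obtain ⟨p', -, -, σ', hσ, τ', hτ, h1⟩ := hc _ hj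
    rcases h1 with ⟨h1, -⟩ | ⟨h1, h2⟩
    · exact absurd (ZFSet.pair_inj.1 h1).1.symm hne01
    obtain ⟨e1, e2, e3⟩ := jd_inj h1
    subst e1
    subst e2
    subst e3
    intro he
    rcases h2 with ⟨π, hπ, r, hr, h4, h5, h6⟩ | ⟨ρ, hρ, s, hs, h4, h5, h6⟩
    · have h7 : ev G π ∈ ev G τ := by
        rw [← he]
        exact mem_ev.2 ⟨π, r, h4, hG.up p hp r (h.leP h5).2 h5, rfl⟩
      obtain ⟨ρ, s, h8, h9, h10⟩ := mem_ev.1 h7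
      obtain ⟨q, hq, h11, h12⟩ := hG.dir _ hp _ h9
      have h13 := hM.of_pair_mem (hM.trans _ hτ _ h8)
      have hQ : Dfn {X | X ∈ C} {x | x ∈ M} fun w : Fin 1 → ZFSet.{0} =>
          Hc {x | x ∈ M} P Le c (nat 1) (w 0) π ρ :=
        Hc' h (h.zs.const hcK) (h.zs.const h1') (DfnF.proj 0) (h.zs.const hπ)
            (h.zs.const h13.1)
      obtain ⟨t, ht, h14⟩ := h.meet hG
          (Q := fun t => Hc {x | x ∈ M} P Le c (nat 1) t π ρ) hQ hq (by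
        intro q' hq' h14
        have hqP := hG.sub hq
        obtain ⟨t, -, htP, h15, h16⟩ := h6 ρ h13.1 s h13.2 h8 q' (h.subM hq') hq'
          (h.cf.trans _ hpP _ hqP _ hq' h14 h11) (h.cf.trans _ (hG.sub h9) _ hqP _ hq' h14 h12)
        exact ⟨t, htP, h15, h16⟩)
      exact ihn π r h4 ρ t ht h14 h10.symm
    · have h7 : ev G ρ ∈ ev G σ := by
        rw [he]
        exact mem_ev.2 ⟨ρ, s, h4, hG.up p hp s (h.leP h5).2 h5, rfl⟩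
      obtain ⟨π, r, h8, h9, h10⟩ := mem_ev.1 h7
      obtain ⟨q, hq, h11, h12⟩ := hG.dir _ hp _ h9
      have h13 := hM.of_pair_mem (hM.trans _ hσ _ h8)
      have hQ : Dfn {X | X ∈ C} {x | x ∈ M} fun w : Fin 1 → ZFSet.{0} =>
          Hc {x | x ∈ M} P Le c (nat 1) (w 0) π ρ :=
        Hc' h (h.zs.const hcK) (h.zs.const h1') (DfnF.proj 0) (h.zs.const h13.1)
            (h.zs.const hρ)
      obtain ⟨t, ht, h14⟩ := h.meet hG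
          (Q := fun t => Hc {x | x ∈ M} P Le c (nat 1) t π ρ) hQ hq (by
        intro q' hq' h14
        have hqP := hG.sub hq
        obtain ⟨t, -, htP, h15, h16⟩ := h6 π h13.1 r h13.2 h8 q' (h.subM hq') hq'
          (h.cf.trans _ hpP _ hqP _ hq' h14 h11) (h.cf.trans _ (hG.sub h9) _ hqP _ hq' h14 h12)
        exact ⟨t, htP, h15, h16⟩)
      exact ihn π r h8 ρ t ht h14 h10

theorem sound_dc {G q σ τ : ZFSet.{0}} (hG : IsGen C P Le G) (hq : q ∈ G) :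
    (Dc {x | x ∈ M} P Le (nat 0) q σ τ → ev G σ = ev G τ) ∧
      (Dc {x | x ∈ M} P Le (nat 1) q σ τ → ev G σ ≠ ev G τ) := by
  constructor
  · rintro ⟨c, hc, h1, p, -, hp, h2, h3⟩
    exact (sound h hG hc h1 σ τ p (hG.up q hq p hp h2)).1 h3
  · rintro ⟨c, hc, h1, p, -, hp, h2, h3⟩
    exact (sound h hG hc h1 σ τ p (hG.up q hq p hp h2)).2 h3

/-! ### The conditions that decide the equality are dense -/

/-- The certificates of least rank. -/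
noncomputable def Wc (K : Set ZFSet.{0}) (P Le u : ZFSet.{0}) : ZFSet.{0} :=
  wt K fun c => Gc K P Le c ∧ (Hc K P Le c (nat 0) (sn u) (fs (fs u)) (sn (fs u)) ∨
    Hc K P Le c (nat 1) (sn u) (fs (fs u)) (sn (fs u)))

theorem dWc : DfnF {X | X ∈ C} {x | x ∈ M} fun w : Fin 1 → ZFSet.{0} =>
    Wc {x | x ∈ M} P Le (w 0) := by
  have h0 : nat 0 ∈ {x | x ∈ M} := h.zf.nat_mem 0
  have h1 : nat 1 ∈ {x | x ∈ M} := h.zf.nat_mem 1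
  unfold Wc
  refine h.zs.wt' (Q := fun c w => Gc {x | x ∈ M} P Le c ∧
    (Hc {x | x ∈ M} P Le c (nat 0) (sn (w 0)) (fs (fs (w 0))) (sn (fs (w 0))) ∨
      Hc {x | x ∈ M} P Le c (nat 1) (sn (w 0)) (fs (fs (w 0))) (sn (fs (w 0))))) ?_
  have h2 : DfnF {X | X ∈ C} {x | x ∈ M} fun w : Fin 2 → ZFSet.{0} => fs (w 1) :=
    h.zs.fs' (DfnF.proj 1)
  refine Dfn.and ((dGc h).comp ![0]) (Dfn.or ?_ ?_)
  · exact Hc' h (DfnF.proj 0) (h.zs.const h0) (h.zs.sn' (DfnF.proj 1)) (h.zs.fs' h2)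
      (h.zs.sn' h2)
  · exact Hc' h (DfnF.proj 0) (h.zs.const h1) (h.zs.sn' (DfnF.proj 1)) (h.zs.fs' h2)
      (h.zs.sn' h2)

theorem dense_dc (hPT : Pretame M C P Le) (σ : ZFSet.{0}) : σ ∈ M → ∀ τ ∈ M, ∀ p ∈ P,
    ∃ q ∈ P, pair q p ∈ Le ∧ (Dc {x | x ∈ M} P Le (nat 0) q σ τ ∨
      Dc {x | x ∈ M} P Le (nat 1) q σ τ) := by
  have hM := h.zf
  have hB := hM.base
  have h0 : nat 0 ∈ {x | x ∈ M} := hM.nat_mem 0
  have h1' : nat 1 ∈ {x | x ∈ M} := hM.nat_mem 1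
  induction σ using dm_ind with
  | _ σ ih =>
  intro hσ τ hτ p hp
  have hI : ZFSet.prod (dm σ) (dm τ) ∈ {x | x ∈ M} :=
    hM.prod_mem (dm_mem hM hσ) (dm_mem hM hτ)
  have hdσ : ∀ {π}, π ∈ dm σ → π ∈ M := fun hπ => hM.trans _ (dm_mem hM hσ) _ hπ
  have hdτ : ∀ {ρ}, ρ ∈ dm τ → ρ ∈ M := fun hρ => hM.trans _ (dm_mem hM hτ) _ hρ
  -- the class of the pairs of an index and a condition that decides it
  have hD : ZFSet.sep (fun u => Dc {x | x ∈ M} P Le (nat 0) (sn u) (fs (fs u)) (sn (fs u)) ∨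
      Dc {x | x ∈ M} P Le (nat 1) (sn u) (fs (fs u)) (sn (fs u))) M ∈ C := by
    refine cls_of h.gbc.toIsGB (Q := fun u =>
      Dc {x | x ∈ M} P Le (nat 0) (sn u) (fs (fs u)) (sn (fs u)) ∨
      Dc {x | x ∈ M} P Le (nat 1) (sn u) (fs (fs u)) (sn (fs u))) (Dfn.or ?_ ?_)
    · exact Dc' h (h.zs.const h0) (h.zs.sn' (DfnF.proj 0)) (h.zs.fs' (h.zs.fs' (DfnF.proj 0)))
        (h.zs.sn' (h.zs.fs' (DfnF.proj 0)))
    · exact Dc' h (h.zs.const h1') (h.zs.sn' (DfnF.proj 0)) (h.zs.fs' (h.zs.fs' (DfnF.proj 0)))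
        (h.zs.sn' (h.zs.fs' (DfnF.proj 0)))
  obtain ⟨q, hq, hqp, b, hb, hpre⟩ := hPT p hp _ hI _ hD (by
    intro i hi q hq hqp
    obtain ⟨π, hπ, ρ, hρ, rfl⟩ := ZFSet.mem_prod.1 hi
    obtain ⟨d, hd, hdq, h1⟩ := ih π hπ (hdσ hπ) ρ (hdτ hρ) q hq
    refine ⟨d, hd, hdq, ZFSet.mem_sep.2 ⟨hM.pair_mem (hM.pair_mem (hdσ hπ) (hdτ hρ))
      (h.subM hd), ?_⟩⟩
    simp only [fs_pair, sn_pair]
    exact h1)
  -- the certificate
  set c := ZFSet.sUnion (im (fun u => ZFSet.sUnion (Wc {x | x ∈ M} P Le u))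
    (ZFSet.prod (ZFSet.prod (dm σ) (dm τ)) b)) with hc
  have hcM : c ∈ {x | x ∈ M} :=
    hM.union _ (h.zs.im_mem (hM.prod_mem hI hb) (hB.sUnion' (dWc h)))
  have hcG : Gc {x | x ∈ M} P Le c := by
    refine gc_sUnion fun x hx => ?_
    obtain ⟨u, -, rfl⟩ := mem_im.1 hx
    exact gc_sUnion fun y hy => (wt_spec hy).2.1
  have hdec : ∀ π ∈ dm σ, ∀ ρ ∈ dm τ, ∀ r ∈ P, pair r q ∈ Le → ∃ t ∈ P, pair t r ∈ Le ∧
      (Hc {x | x ∈ M} P Le c (nat 0) t π ρ ∨ Hc {x | x ∈ M} P Le c (nat 1) t π ρ) := by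
    intro π hπ ρ hρ r hr hrq
    obtain ⟨d, hdb, hdP, hdD, t, ht, htd, htr⟩ := hpre _ (ZFSet.mem_prod.2 ⟨π, hπ, ρ, hρ, rfl⟩)
      r hr hrq
    refine ⟨t, ht, htr, ?_⟩
    obtain ⟨-, h2⟩ := ZFSet.mem_sep.1 hdD
    simp only [fs_pair, sn_pair] at h2
    have h3 : ∃ c ∈ {x | x ∈ M}, Gc {x | x ∈ M} P Le c ∧
        (Hc {x | x ∈ M} P Le c (nat 0) d π ρ ∨ Hc {x | x ∈ M} P Le c (nat 1) d π ρ) := by
      rcases h2 with ⟨c, h3, h4, h5⟩ | ⟨c, h3, h4, h5⟩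
      · exact ⟨c, h3, h4, Or.inl h5⟩
      · exact ⟨c, h3, h4, Or.inr h5⟩
    obtain ⟨c', hc'⟩ := wt_ne hM h3
    have h4 : c' ∈ Wc {x | x ∈ M} P Le (pair (pair π ρ) d) := by
      unfold Wc
      simp only [fs_pair, sn_pair]
      exact hc'
    have hsub : c' ⊆ c := fun x hx => ZFSet.mem_sUnion.2 ⟨_, mem_im.2 ⟨_,
      ZFSet.mem_prod.2 ⟨_, ZFSet.mem_prod.2 ⟨π, hπ, ρ, hρ, rfl⟩, d, hdb, rfl⟩, rfl⟩,
      ZFSet.mem_sUnion.2 ⟨c', h4, hx⟩⟩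
    rcases (wt_spec hc').2.2 with h5 | h5
    · exact Or.inl (Hc.le h (h5.mono hsub) htd)
    · exact Or.inr (Hc.le h (h5.mono hsub) htd)
  by_cases hn : ∃ q₁ ∈ P, pair q₁ q ∈ Le ∧ Jn {x | x ∈ M} P Le c q₁ σ τ
  · obtain ⟨q₁, hq₁, h1, h2⟩ := hn
    have h3 := gc_insert hcG (j := jd (nat 1) q₁ σ τ) (h.subM hq₁) hq₁ hσ hτ (Or.inr ⟨rfl, h2⟩)
    have h4 : jd (nat 1) q₁ σ τ ∈ {x | x ∈ M} :=
      hM.pair_mem h1' (hM.pair_mem (h.subM hq₁) (hM.pair_mem hσ hτ))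
    exact ⟨q₁, hq₁, h.cf.trans _ hp _ hq _ hq₁ h1 hqp, Or.inr ⟨_, hM.insert_mem h4 hcM, h3,
      q₁, h.subM hq₁, hq₁, h.cf.refl _ hq₁, ZFSet.mem_insert _ _⟩⟩
  · push Not at hn
    have h2 : Jp {x | x ∈ M} P Le c q σ τ := by
      constructor
      · intro π hπ r hr h1 q₁ hq₁ hq₁P h3 h4
        by_contra hcon
        refine hn q₁ hq₁P h3 (Or.inl ⟨π, hπ, r, hr, h1, h4, fun ρ hρ s hs h5 q₂ hq₂ hq₂P h6 h7 =>
          ?_⟩)
        have h8 := h.cf.trans _ hq _ hq₁P _ hq₂P h6 h3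
        obtain ⟨t, ht, h9, h10⟩ := hdec π (mem_dm h1) ρ (mem_dm h5) q₂ hq₂P h8
        rcases h10 with h10 | h10
        · exact absurd ⟨t, h.subM ht, ht, h.cf.trans _ hq₁P _ hq₂P _ ht h9 h6, ρ, hρ, s, hs, h5,
            h.cf.trans _ (h.leP h7).2 _ hq₂P _ ht h9 h7, h10⟩ hcon
        · exact ⟨t, h.subM ht, ht, h9, h10⟩
      · intro ρ hρ s hs h1 q₁ hq₁ hq₁P h3 h4
        by_contra hcon
        refine hn q₁ hq₁P h3 (Or.inr ⟨ρ, hρ, s, hs, h1, h4, fun π hπ r hr h5 q₂ hq₂ hq₂P h6 h7 =>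
          ?_⟩)
        have h8 := h.cf.trans _ hq _ hq₁P _ hq₂P h6 h3
        obtain ⟨t, ht, h9, h10⟩ := hdec π (mem_dm h5) ρ (mem_dm h1) q₂ hq₂P h8
        rcases h10 with h10 | h10
        · exact absurd ⟨t, h.subM ht, ht, h.cf.trans _ hq₁P _ hq₂P _ ht h9 h6, π, hπ, r, hr, h5,
            h.cf.trans _ (h.leP h7).2 _ hq₂P _ ht h9 h7, h10⟩ hcon
        · exact ⟨t, h.subM ht, ht, h9, h10⟩
    have h3 := gc_insert hcG (j := jd (nat 0) q σ τ) (h.subM hq) hq hσ hτ (Or.inl ⟨rfl, h2⟩)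
    have h4 : jd (nat 0) q σ τ ∈ {x | x ∈ M} :=
      hM.pair_mem h0 (hM.pair_mem (h.subM hq) (hM.pair_mem hσ hτ))
    exact ⟨q, hq, hqp, Or.inl ⟨_, hM.insert_mem h4 hcM, h3,
      q, h.subM hq, hq, h.cf.refl _ hq, ZFSet.mem_insert _ _⟩⟩

/-! ### The forcing theorem for equality -/

theorem meet_dc (hPT : Pretame M C P Le) {G σ τ p : ZFSet.{0}} (hG : IsGen C P Le G)
    (hσ : σ ∈ M) (hτ : τ ∈ M) (hp : p ∈ G) : ∃ r ∈ G, Dc {x | x ∈ M} P Le (nat 0) r σ τ ∨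
      Dc {x | x ∈ M} P Le (nat 1) r σ τ := by
  have h0 : nat 0 ∈ {x | x ∈ M} := h.zf.nat_mem 0
  have h1 : nat 1 ∈ {x | x ∈ M} := h.zf.nat_mem 1
  have hσ' : σ ∈ {x | x ∈ M} := hσ
  have hτ' : τ ∈ {x | x ∈ M} := hτ
  refine h.meet hG (Q := fun r => Dc {x | x ∈ M} P Le (nat 0) r σ τ ∨
      Dc {x | x ∈ M} P Le (nat 1) r σ τ) (Dfn.or ?_ ?_) hp fun q hq _ => ?_
  · exact Dc' h (h.zs.const h0) (DfnF.proj 0) (h.zs.const hσ') (h.zs.const hτ')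
  · exact Dc' h (h.zs.const h1) (DfnF.proj 0) (h.zs.const hσ') (h.zs.const hτ')
  · exact dense_dc h hPT σ hσ τ hτ q hq

theorem good_eq_of_pretame (hPT : Pretame M C P Le) :
    Good M C P Le 2 fun v G => ev G (v 0) = ev G (v 1) := by
  have h1 : nat 1 ∈ {x | x ∈ M} := h.zf.nat_mem 1
  have key : ∀ σ ∈ M, ∀ τ ∈ M, ∀ p ∈ P, (Fo M C P Le (fun G => ev G σ = ev G τ) p ↔
      ∀ q ∈ P, pair q p ∈ Le → ¬ Dc {x | x ∈ M} P Le (nat 1) q σ τ) := by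
    intro σ hσ τ hτ p hp
    constructor
    · intro h2 q hq hqp h3
      obtain ⟨G, hG, hqG⟩ := h.gen hq
      exact (sound_dc h hG hqG).2 h3 (h2 G hG (hG.up q hqG p hp hqp))
    · intro h2 G hG hpG
      obtain ⟨r, hr, h3⟩ := meet_dc h hPT hG hσ hτ hpG
      rcases h3 with h3 | h3
      · exact (sound_dc h hG hr).1 h3
      · obtain ⟨q, hq, h4, h5⟩ := hG.dir _ hr _ hpG
        exact absurd (Dc.le h h3 h4) (h2 q (hG.sub hq) h5)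
  constructor
  · have h2 : Dfn {X | X ∈ C} {x | x ∈ M} fun w : Fin 3 → ZFSet.{0} =>
        (∀ i : Fin 2, IsName P (w i.succ)) ∧ w 0 ∈ P ∧ ∀ q ∈ {x | x ∈ M}, q ∈ P →
          pair q (w 0) ∈ Le → ¬ Dc {x | x ∈ M} P Le (nat 1) q (w 1) (w 2) := by
      refine (h.dNs 2).and ((h.dP.comp ![0]).and ?_)
      apply Dfn.all
      refine Dfn.imp (h.dP.comp ![0]) (Dfn.imp (h.dL.comp ![0, 1]) (Dfn.not ?_))
      exact Dc' h (h.zs.const h1) (DfnF.proj 0) (DfnF.proj 2) (DfnF.proj 3)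
    refine h2.congr fun w hw => and_congr_right fun h3 => and_congr_right fun h4 => ?_
    have h5 := key (w 1) (hw 1) (w 2) (hw 2) (w 0) h4
    constructor
    · intro h6
      exact h5.2 fun q hq hqp => h6 q (h.subM hq) hq hqp
    · intro h6 q _ hq hqp
      exact h5.1 h6 q hq hqp
  · intro v hv G hG h2
    obtain ⟨p, hp⟩ := hG.nonempty
    obtain ⟨r, hr, h3⟩ := meet_dc h hPT hG (hv 0).1 (hv 1).1 hp
    rcases h3 with h3 | h3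
    · exact ⟨r, hr, fun G' hG' hr' => (sound_dc h hG' hr').1 h3⟩
    · exact absurd h2 ((sound_dc h hG hr).2 h3)

theorem forcingThm_of_pretame (hPT : Pretame M C P Le) : ForcingThm M C P Le :=
  forcingThm_of_eq h (good_eq_of_pretame h hPT)

end

end Pool.Agent.W2helper52.CF
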