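import Pool.Agent.W2helper52.CF.Ptm

/-!
# Class forcings that preserve Separation are pretame

Let `(M, C)` be a countable transitive model of `GBC`. If pretameness fails for the condition `p₀`,
the set `I` and the class `D`, we use a recursion along an enumeration of `M` in order type `Ord`
that is a class to find a class of triples `(i, d, y)` such that `(i, d) ∈ D`, for each `i` the
conditions `d` are pairwise incompatible, and for all `y` and `q ≤ p₀` there is a triple with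
`d ≤ q`. If `G` is generic and `p₀ ∈ G`, the values of the names `y` of the triples with `d ∈ G`
give a function from a subset of `I` onto `M[G]`, and Separation and Cantor's diagonal argument
give a contradiction.
-/

set_option autoImplicit false
set_option linter.unreachableTactic false
set_option linter.unusedTactic false
set_option linter.unusedSectionVars false
set_option linter.unusedVariables false

namespace Pool.Agent.W2helper52.CF

open Pool.Agent.W868 Pool.Agent.W868.GM Pool.Agent.Y588 Pool.Agent.R597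
open ZFSet (pair)

/-! ### Names for the sets of the ground model and for pairs -/

/-- The name of the set `x` that uses only the condition `p`. -/
noncomputable def ck (p : ZFSet.{0}) : ZFSet.{0} → ZFSet.{0} :=
  wfF (fun z => z) ZFSet.mem_wf fun _ g => im (fun u => pair (sn u) p) g

theorem ck_eq (p x : ZFSet.{0}) : ck p x = im (fun u => pair (sn u) p) (gr (ck p) x) :=
  wfF_eq _ _ _ _

theorem mem_ck {p x z : ZFSet.{0}} : z ∈ ck p x ↔ ∃ y ∈ x, z = pair (ck p y) p := by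
  rw [ck_eq, mem_im]
  constructor
  · rintro ⟨u, hu, rfl⟩
    obtain ⟨y, hy, rfl⟩ := mem_gr.1 hu
    exact ⟨y, hy, by rw [sn_pair]⟩
  · rintro ⟨y, hy, rfl⟩
    exact ⟨_, mem_gr.2 ⟨y, hy, rfl⟩, by rw [sn_pair]⟩

theorem ev_ck {p G : ZFSet.{0}} (hp : p ∈ G) (x : ZFSet.{0}) : ev G (ck p x) = x := by
  induction x using ZFSet.inductionOn with
  | _ x ih =>
    ext z
    rw [mem_ev]
    constructor
    · rintro ⟨y, r, h1, h2, rfl⟩
      obtain ⟨y', hy', h3⟩ := mem_ck.1 h1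
      obtain ⟨rfl, rfl⟩ := ZFSet.pair_inj.1 h3
      rw [ih y' hy']
      exact hy'
    · intro hz
      exact ⟨ck p z, p, mem_ck.2 ⟨z, hz, rfl⟩, hp, ih z hz⟩

theorem isName_ck {p P : ZFSet.{0}} (hp : p ∈ P) (x : ZFSet.{0}) : IsName P (ck p x) := by
  induction x using ZFSet.inductionOn with
  | _ x ih =>
    refine IsName.mk _ (fun z hz => ?_) fun y r hz => ?_
    · obtain ⟨y, -, rfl⟩ := mem_ck.1 hz
      exact ⟨_, p, hp, rfl⟩
    · obtain ⟨y', hy', h3⟩ := mem_ck.1 hz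
      obtain ⟨rfl, rfl⟩ := ZFSet.pair_inj.1 h3
      exact ih y' hy'

/-- The name of the unordered pair. -/
noncomputable def upn (p σ τ : ZFSet.{0}) : ZFSet.{0} := {pair σ p, pair τ p}

/-- The name of the ordered pair. -/
noncomputable def opn (p σ τ : ZFSet.{0}) : ZFSet.{0} := upn p (upn p σ σ) (upn p σ τ)

theorem ev_upn {p G : ZFSet.{0}} (hp : p ∈ G) (σ τ : ZFSet.{0}) :
    ev G (upn p σ τ) = {ev G σ, ev G τ} := by
  ext z
  rw [mem_ev, ZFSet.mem_pair]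
  constructor
  · rintro ⟨y, r, h1, h2, rfl⟩
    rcases ZFSet.mem_pair.1 h1 with h1 | h1
    · exact Or.inl (by rw [(ZFSet.pair_inj.1 h1).1])
    · exact Or.inr (by rw [(ZFSet.pair_inj.1 h1).1])
  · rintro (rfl | rfl)
    · exact ⟨σ, p, ZFSet.mem_pair.2 (Or.inl rfl), hp, rfl⟩
    · exact ⟨τ, p, ZFSet.mem_pair.2 (Or.inr rfl), hp, rfl⟩

theorem ev_opn {p G : ZFSet.{0}} (hp : p ∈ G) (σ τ : ZFSet.{0}) :
    ev G (opn p σ τ) = pair (ev G σ) (ev G τ) := by
  rw [opn, ev_upn hp, ev_upn hp, ev_upn hp, ZFSet.pair_eq_singleton, pair]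

theorem isName_upn {p P σ τ : ZFSet.{0}} (hp : p ∈ P) (hσ : IsName P σ) (hτ : IsName P τ) :
    IsName P (upn p σ τ) := by
  refine IsName.mk _ (fun z hz => ?_) fun y r hz => ?_
  · rcases ZFSet.mem_pair.1 hz with rfl | rfl
    · exact ⟨_, p, hp, rfl⟩
    · exact ⟨_, p, hp, rfl⟩
  · rcases ZFSet.mem_pair.1 hz with h1 | h1
    · rw [(ZFSet.pair_inj.1 h1).1]
      exact hσ
    · rw [(ZFSet.pair_inj.1 h1).1]
      exact hτ

theorem isName_opn {p P σ τ : ZFSet.{0}} (hp : p ∈ P) (hσ : IsName P σ) (hτ : IsName P τ) :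
    IsName P (opn p σ τ) :=
  isName_upn hp (isName_upn hp hσ hσ) (isName_upn hp hσ hτ)

/-! ### The choice function -/

/-- The least element of the set `x` in the well-order `W`. -/
noncomputable def ch (W x : ZFSet.{0}) : ZFSet.{0} :=
  open Classical in if h : ∃ y ∈ x, ∀ z ∈ x, z = y ∨ pair y z ∈ W then h.choose else ∅

/-- The class `W` is a well-order of `M`. -/
structure IsWO (M W : ZFSet.{0}) : Prop where
  irrefl : ∀ x ∈ M, pair x x ∉ W
  trans : ∀ x ∈ M, ∀ y ∈ M, ∀ z ∈ M, pair x y ∈ W → pair y z ∈ W → pair x z ∈ W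
  least : ∀ x ∈ M, (∃ y, y ∈ x) → ∃ y ∈ x, ∀ z ∈ x, z = y ∨ pair y z ∈ W

theorem IsWO.unique {M W : ZFSet.{0}} (hW : IsWO M W) {x y y' : ZFSet.{0}}
    (hx : ∀ z ∈ x, z ∈ M) (hy : y ∈ x) (hy' : y' ∈ x) (h1 : ∀ z ∈ x, z = y ∨ pair y z ∈ W)
    (h2 : ∀ z ∈ x, z = y' ∨ pair y' z ∈ W) : y = y' := by
  rcases h1 y' hy' with h3 | h3
  · exact h3.symm
  rcases h2 y hy with h4 | h4
  · exact h4
  exact absurd (hW.trans y (hx _ hy) y' (hx _ hy') y (hx _ hy) h3 h4) (hW.irrefl y (hx _ hy))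

theorem ch_mem {M W : ZFSet.{0}} (hW : IsWO M W) {x : ZFSet.{0}} (hx : x ∈ M)
    (hne : ∃ y, y ∈ x) : ch W x ∈ x := by
  have h := hW.least x hx hne
  rw [ch, dif_pos h]
  exact h.choose_spec.1

section

variable {M C W : ZFSet.{0}} (hZ : ZS {X | X ∈ C} {x | x ∈ M}) (hWC : W ∈ C) (hW : IsWO M W)

include hZ hWC hW

theorem dfn_ch : DfnF {X | X ∈ C} {x | x ∈ M} fun w : Fin 1 → ZFSet.{0} => ch W (w 0) := by
  have hB := hZ.zf.base
  have h0 := hZ.zf.empty_mem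
  refine DfnF.of_unique (R := fun y v => (y ∈ v 0 ∧ ∀ z ∈ v 0, z = y ∨ pair y z ∈ W) ∨
    (y = ∅ ∧ ¬ ∃ y ∈ v 0, ∀ z ∈ v 0, z = y ∨ pair y z ∈ W)) ?_ ?_
  · (repeat' first
      | exact DfnF.proj _
      | exact hZ.const h0
      | apply Dfn.not | apply Dfn.and | apply Dfn.or
      | apply hB.bex | apply hB.ball
      | apply Dfn.eq | apply Dfn.cls hWC | apply Dfn.mem | apply hB.pair')
  · intro v hv
    have hx : ∀ z ∈ v 0, z ∈ M := fun z hz => hZ.zf.trans _ (hv 0) _ hz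
    by_cases h : ∃ y ∈ v 0, ∀ z ∈ v 0, z = y ∨ pair y z ∈ W
    · rw [ch, dif_pos h]
      have h1 := h.choose_spec
      refine ⟨hx _ h1.1, fun y hy => ?_⟩
      constructor
      · rintro (⟨h2, h3⟩ | ⟨-, h2⟩)
        · exact hW.unique hx h2 h1.1 h3 h1.2
        · exact absurd h h2
      · rintro rfl
        exact Or.inl h1
    · rw [ch, dif_neg h]
      refine ⟨h0, fun y hy => ?_⟩
      constructor
      · rintro (⟨h2, h3⟩ | ⟨h2, -⟩)
        · exact absurd ⟨y, h2, h3⟩ h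
        · exact h2
      · rintro rfl
        exact Or.inr ⟨rfl, h⟩

theorem ch' {n : ℕ} {F : (Fin n → ZFSet.{0}) → ZFSet.{0}}
    (hF : DfnF {X | X ∈ C} {x | x ∈ M} F) :
    DfnF {X | X ∈ C} {x | x ∈ M} fun w => ch W (F w) :=
  DfnF.comp1 (f := ch W) (dfn_ch hZ hWC hW) hF

/-! ### The enumeration of the model -/

/-- The enumeration of the model. -/
noncomputable def enu (M W : ZFSet.{0}) : ZFSet.{0} → ZFSet.{0} :=
  wfF (fun z => z) ZFSet.mem_wf fun _ g => ch W (wt {x | x ∈ M} fun w => w ∉ im sn g)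

omit hZ hWC hW in
theorem enu_eq' (z : ZFSet.{0}) : enu M W z =
    ch W (wt {x | x ∈ M} fun w => w ∉ im sn (gr (enu M W) z)) := wfF_eq _ _ _ _

omit hZ hWC hW in
theorem enu_eq (z : ZFSet.{0}) : enu M W z =
    ch W (wt {x | x ∈ M} fun w => w ∉ im (enu M W) z) := by
  rw [enu_eq', im_sn_gr]

theorem dfn_enu : DfnF {X | X ∈ C} {x | x ∈ M} fun w : Fin 1 → ZFSet.{0} =>
    enu M W (w 0) := by
  refine hZ.memrec (G := fun _ g => ch W (wt {x | x ∈ M} fun w => w ∉ im sn g)) ?_ enu_eq'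
  refine ch' hZ hWC hW (hZ.wt' (Q := fun w v => w ∉ im sn (v 1)) (Dfn.not ?_))
  refine Dfn.mem (DfnF.proj 0) ?_
  exact hZ.im' (h := fun p _ => sn p) (DfnF.proj 2) (hZ.sn' (DfnF.proj 0))

theorem wt_mem {Q : ZFSet.{0} → Prop}
    (hQ : Dfn {X | X ∈ C} {x | x ∈ M} fun w : Fin 1 → ZFSet.{0} => Q (w 0)) :
    wt {x | x ∈ M} Q ∈ M :=
  (hZ.wt' (n := 0) (Q := fun w _ => Q w) hQ).1 Fin.elim0 fun i => i.elim0

theorem enu_spec {z : ZFSet.{0}} (hz : z ∈ M) :
    enu M W z ∈ wt {x | x ∈ M} fun w => w ∉ im (enu M W) z := by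
  have him : im (enu M W) z ∈ {x | x ∈ M} := hZ.im_mem hz (dfn_enu hZ hWC hW)
  rw [enu_eq]
  refine ch_mem hW (wt_mem hZ hWC hW (Dfn.mem (DfnF.proj 0) (hZ.const him)).not) ?_
  exact wt_ne hZ.zf ⟨_, him, ZFSet.mem_irrefl _⟩

theorem enu_inj {α β : ZFSet.{0}} (hβ : β ∈ M) (h : α ∈ β) : enu M W α ≠ enu M W β := by
  intro he
  exact (wt_spec (enu_spec hZ hWC hW hβ)).2 (mem_im.2 ⟨α, h, he.symm⟩)

theorem enu_surj {y : ZFSet.{0}} (hy : y ∈ M) : ∃ α ∈ M, α.IsOrdinal ∧ enu M W α = y := by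
  by_contra hcon
  push Not at hcon
  have hrk := rk_mem hZ.zf hy
  have hV : Vh {x | x ∈ M} (sc (rk y)) ∈ {x | x ∈ M} :=
    Vh_mem hZ.zf (hZ.zf.sc_mem hrk)
  obtain ⟨S, hS, hSo, hSi⟩ := hartogs hZ.zf hV
  apply hSi
  refine hZ.inj_of_fun hS (dfn_enu hZ hWC hW) (fun α hα => ?_) fun α hα β hβ he => ?_
  · have hαM : α ∈ M := hZ.zf.trans _ hS _ hα
    have h1 := enu_spec hZ hWC hW hαM
    have h2 := (ZFSet.mem_sep.1 h1).1
    have hlo : lo {x | x ∈ M} (fun ξ => ∃ w ∈ {x | x ∈ M}, rk w = ξ ∧ w ∉ im (enu M W) α) ⊆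
        rk y := by
      refine lo_subset hrk (isOrdinal_rk y) ⟨y, hy, rfl, fun h3 => ?_⟩
      obtain ⟨β, hβ, h4⟩ := mem_im.1 h3
      exact hcon β (hZ.zf.trans _ hαM _ hβ) ((hSo.mem hα).mem hβ) h4.symm
    obtain ⟨u, hu, h3, h4⟩ := mem_Vh.1 h2
    refine mem_Vh.2 ⟨u, ?_, h3, h4⟩
    have hlo' : (lo {x | x ∈ M} (fun ξ => ∃ w ∈ {x | x ∈ M}, rk w = ξ ∧
      w ∉ im (enu M W) α)).IsOrdinal := lo_isOrdinal
    rcases ZFSet.mem_insert_iff.1 hu with rfl | hu
    · rcases (isOrdinal_rk y).mem_or_subset hlo' with h5 | h5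
      · exact absurd (hlo h5) (ZFSet.mem_irrefl _)
      · have h6 : lo {x | x ∈ M} (fun ξ => ∃ w ∈ {x | x ∈ M}, rk w = ξ ∧
            w ∉ im (enu M W) α) = rk y ∨ lo {x | x ∈ M} (fun ξ => ∃ w ∈ {x | x ∈ M}, rk w = ξ ∧
            w ∉ im (enu M W) α) ∈ rk y := by
          rcases hlo'.mem_trichotomous (isOrdinal_rk y) with h7 | h7 | h7
          · exact Or.inr h7
          · exact Or.inl h7
          · exact absurd (hlo h7) (ZFSet.mem_irrefl _)
        rcases h6 with h6 | h6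
        · rw [h6]
          exact ZFSet.mem_insert _ _
        · exact ZFSet.mem_insert_of_mem _ h6
    · exact ZFSet.mem_insert_of_mem _ (hlo hu)
  · rcases (hSo.mem hα).mem_trichotomous (hSo.mem hβ) with h1 | h1 | h1
    · exact absurd he (enu_inj hZ hWC hW (hZ.zf.trans _ hS _ hβ) h1)
    · exact h1
    · exact absurd he.symm (enu_inj hZ hWC hW (hZ.zf.trans _ hS _ hα) h1)

end

end Pool.Agent.W2helper52.CF
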